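import Mathlib

/-!
# Large subsets of points which are near each other
-/

set_option autoImplicit false

namespace Pool.Agent.N751.PR

open Finset

open Classical in
/-- one place -/
theorem one_place {α : Type*} (S : Finset α) (l : α → α → ℝ) {q : ℕ} (s o : ℝ) (ho : 0 ≤ o)
    (hsymm : ∀ x y, l x y = l y x)
    (htri : ∀ x ∈ S, ∀ y ∈ S, ∀ z ∈ S, x ≠ y → x ≠ z → z ≠ y → s ≤ l x z → s ≤ l z y →
      s - o ≤ l x y)
    (hnear : ∀ T ⊆ S, T.card = q + 1 → ∃ x ∈ T, ∃ y ∈ T, x ≠ y ∧ s ≤ l x y) :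
    ∃ S' ⊆ S, S.card ≤ q * S'.card ∧ ∀ x ∈ S', ∀ y ∈ S', x ≠ y → s - o ≤ l x y := by
  rcases S.eq_empty_or_nonempty with hS | ⟨x0, hx0⟩
  · exact ⟨∅, by simp, by rw [hS]; simp, fun x hx => absurd hx (Finset.notMem_empty x)⟩
  obtain ⟨F, hmem⟩ : ∃ F : Finset (Finset α), ∀ Z, Z ∈ F ↔ Z ⊆ S ∧
      ∀ x ∈ Z, ∀ y ∈ Z, x ≠ y → l x y < s := by
    obtain ⟨p, hp⟩ : ∃ p : Finset α → Prop, p = fun Z =>
      ∀ x ∈ Z, ∀ y ∈ Z, x ≠ y → l x y < s := ⟨_, rfl⟩
    refine ⟨S.powerset.filter p, fun Z => ?_⟩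
    rw [Finset.mem_filter, Finset.mem_powerset, hp]
  have hne : F.Nonempty := ⟨∅, (hmem ∅).2 ⟨by simp, fun x hx => absurd hx (Finset.notMem_empty x)⟩⟩
  obtain ⟨Z, hZF, hZmax⟩ := Finset.exists_max_image F Finset.card hne
  obtain ⟨hZS, hZ⟩ := (hmem Z).1 hZF
  have hZq : Z.card ≤ q := by
    by_contra hcon
    push Not at hcon
    obtain ⟨T, hTZ, hT⟩ := Finset.exists_subset_card_eq (show q + 1 ≤ Z.card by omega)
    obtain ⟨x, hx, y, hy, hxy, hl⟩ := hnear T (hTZ.trans hZS) hT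
    exact absurd (hZ x (hTZ hx) y (hTZ hy) hxy) (not_lt.2 hl)
  have hZ1 : 1 ≤ Z.card := by
    have h1 : ({x0} : Finset α) ∈ F := by
      refine (hmem _).2 ⟨by simpa using hx0, ?_⟩
      intro x hx y hy hxy
      rw [Finset.mem_singleton] at hx hy
      exact absurd (hx.trans hy.symm) hxy
    have := hZmax _ h1
    simpa using this
  have hf : ∀ x : α, ∃ z : α, x ∈ S → z ∈ Z ∧ (z = x ∨ s ≤ l x z) := by
    intro x
    by_cases hx : x ∈ S
    swap
    · exact ⟨x, fun h => absurd h hx⟩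
    by_cases hxZ : x ∈ Z
    · exact ⟨x, fun _ => ⟨hxZ, Or.inl rfl⟩⟩
    by_contra hcon
    push Not at hcon
    have h1 : insert x Z ∈ F := by
      refine (hmem _).2 ⟨Finset.insert_subset hx hZS, ?_⟩
      intro y hy z hz hyz
      rw [Finset.mem_insert] at hy hz
      rcases hy with rfl | hy
      · rcases hz with rfl | hz
        · exact absurd rfl hyz
        · exact ((hcon z).2 hz).2
      · rcases hz with rfl | hz
        · rw [hsymm]
          exact ((hcon y).2 hy).2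
        · exact hZ y hy z hz hyz
    have h2 := hZmax _ h1
    rw [Finset.card_insert_of_notMem hxZ] at h2
    omega
  choose f hf using hf
  have hZR : (0 : ℝ) < Z.card := by exact_mod_cast hZ1
  obtain ⟨z, hzZ, hz⟩ := Finset.exists_le_card_fiber_of_nsmul_le_card_of_maps_to
    (s := S) (t := Z) (f := f) (b := (S.card : ℝ) / Z.card) (fun x hx => (hf x hx).1)
    (Finset.card_pos.1 hZ1) (by
      rw [nsmul_eq_mul, mul_div_cancel₀ _ hZR.ne'])
  refine ⟨S.filter fun x => f x = z, Finset.filter_subset _ _, ?_, ?_⟩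
  · rw [div_le_iff₀ hZR] at hz
    have h1 : S.card ≤ (S.filter fun x => f x = z).card * Z.card := by exact_mod_cast hz
    calc S.card ≤ (S.filter fun x => f x = z).card * Z.card := h1
      _ ≤ (S.filter fun x => f x = z).card * q := Nat.mul_le_mul_left _ hZq
      _ = _ := mul_comm _ _
  · intro x hx y hy hxy
    obtain ⟨hxS, hxz⟩ := Finset.mem_filter.1 hx
    obtain ⟨hyS, hyz⟩ := Finset.mem_filter.1 hy
    have h1 := (hf x hxS).2
    have h2 := (hf y hyS).2
    rw [hxz] at h1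
    rw [hyz] at h2
    rcases h1 with rfl | h1
    · rcases h2 with rfl | h2
      · exact absurd rfl hxy
      · rw [hsymm]
        linarith
    · rcases h2 with rfl | h2
      · linarith
      · by_cases hxz' : x = z
        · subst hxz'
          rw [hsymm]
          linarith
        by_cases hyz' : z = y
        · subst hyz'
          linarith
        refine htri x hxS y hyS z (hZS hzZ) hxy hxz' hyz' h1 ?_
        rw [hsymm]
        exact h2

open Classical in
/-- finitely many places -/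
theorem many_places {α ι : Type*} (V : Finset ι) (l : ι → α → α → ℝ) {q : ℕ}
    (s o : ι → ℝ) (ho : ∀ v, 0 ≤ o v) (hsymm : ∀ v x y, l v x y = l v y x) :
    ∀ S : Finset α, (∀ v ∈ V, ∀ x ∈ S, ∀ y ∈ S, ∀ z ∈ S, x ≠ y → x ≠ z → z ≠ y →
      s v ≤ l v x z → s v ≤ l v z y → s v - o v ≤ l v x y) →
    (∀ v ∈ V, ∀ T ⊆ S, T.card = q + 1 → ∃ x ∈ T, ∃ y ∈ T, x ≠ y ∧ s v ≤ l v x y) →
    ∃ S' ⊆ S, S.card ≤ q ^ V.card * S'.card ∧
      ∀ v ∈ V, ∀ x ∈ S', ∀ y ∈ S', x ≠ y → s v - o v ≤ l v x y := by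
  induction V using Finset.induction_on with
  | empty =>
    intro S _ _
    exact ⟨S, subset_rfl, by simp, fun v hv => absurd hv (Finset.notMem_empty v)⟩
  | insert v V hv ih =>
    intro S htri hnear
    obtain ⟨S1, hS1, hc1, h1⟩ := ih S (fun w hw => htri w (Finset.mem_insert_of_mem hw))
      (fun w hw => hnear w (Finset.mem_insert_of_mem hw))
    obtain ⟨S2, hS2, hc2, h2⟩ := one_place S1 (l v) (s v) (o v) (ho v) (hsymm v)
      (fun x hx y hy z hz => htri v (Finset.mem_insert_self v V) x (hS1 hx) y (hS1 hy) z (hS1 hz))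
      (fun T hT => hnear v (Finset.mem_insert_self v V) T (hT.trans hS1))
    refine ⟨S2, hS2.trans hS1, ?_, ?_⟩
    · rw [Finset.card_insert_of_notMem hv, pow_succ, mul_assoc]
      exact hc1.trans (Nat.mul_le_mul_left _ hc2)
    · intro w hw x hx y hy hxy
      rcases Finset.mem_insert.1 hw with rfl | hw
      · exact h2 x hx y hy hxy
      · exact h1 w hw x (hS2 hx) y (hS2 hy) hxy

end Pool.Agent.N751.PR
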