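import Mathlib
import Pool.Agent.N753.LS.SetE

/-!
# The larger sieve for points which are near each other at given places
-/

set_option autoImplicit false

namespace Pool.Agent.N751.PR

open NumberField IsDedekindDomain Finset Pool.Agent.H691R3 Pool.Agent.TH876.Loc Pool.Agent.N753.LS

section

variable {K : Type} [Field K] [NumberField K]

open Classical in
/-- the larger sieve, with a given bound for the coincidences of a pair -/
theorem sieve_abs (S : Finset K) (P : Finset (HeightOneSpectrum (𝓞 K))) (Λ : ℝ)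
    (key : ∀ x ∈ S, ∀ y ∈ S, x ≠ y →
      ∑ v ∈ P, (if cls v y = cls v x then Real.log (Nv v) else 0) ≤ Λ)
    (ν : HeightOneSpectrum (𝓞 K) → ℝ)
    (hν : ∀ v ∈ P, 0 < ν v ∧ ((S.image (cls v)).card : ℝ) ≤ ν v) (h2 : 2 ≤ S.card) :
    0 ≤ Λ ∧ (S.card : ℝ) * (∑ v ∈ P, Real.log (Nv v) / ν v - Λ) ≤ ∑ v ∈ P, Real.log (Nv v) := by
  have hlog : ∀ v : HeightOneSpectrum (𝓞 K), 0 < Real.log (Nv v) := log_Nv_pos
  have hΛ0 : 0 ≤ Λ := by
    obtain ⟨x, hx, y, hy, hxy⟩ := Finset.one_lt_card.1 (show 1 < S.card by omega)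
    refine le_trans (Finset.sum_nonneg fun v _ => ?_) (key x hx y hy hxy)
    split_ifs
    · exact (hlog v).le
    · exact le_rfl
  refine ⟨hΛ0, ?_⟩
  have h3 : ∑ v ∈ P, Real.log (Nv v) * (∑ x ∈ S, ((S.filter fun y => cls v y = cls v x).card : ℝ)) ≤
      (S.card : ℝ) * (∑ v ∈ P, Real.log (Nv v)) + (S.card : ℝ) * (((S.card : ℝ) - 1) * Λ) := by
    have h4 : ∑ v ∈ P, Real.log (Nv v) *
        (∑ x ∈ S, ((S.filter fun y => cls v y = cls v x).card : ℝ)) =
        ∑ x ∈ S, ∑ y ∈ S, ∑ v ∈ P, (if cls v y = cls v x then Real.log (Nv v) else 0) := by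
      have h5 : ∀ v ∈ P, Real.log (Nv v) *
          (∑ x ∈ S, ((S.filter fun y => cls v y = cls v x).card : ℝ)) =
          ∑ x ∈ S, ∑ y ∈ S, (if cls v y = cls v x then Real.log (Nv v) else 0) := by
        intro v _
        rw [Finset.mul_sum]
        refine Finset.sum_congr rfl fun x _ => ?_
        rw [← Finset.sum_filter, Finset.sum_const, nsmul_eq_mul, mul_comm]
      rw [Finset.sum_congr rfl h5, Finset.sum_comm]
      refine Finset.sum_congr rfl fun x _ => ?_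
      rw [Finset.sum_comm]
    rw [h4]
    calc ∑ x ∈ S, ∑ y ∈ S, ∑ v ∈ P, (if cls v y = cls v x then Real.log (Nv v) else 0)
        ≤ ∑ x ∈ S, (∑ v ∈ P, Real.log (Nv v) + ((S.card : ℝ) - 1) * Λ) := by
          refine Finset.sum_le_sum fun x hx => ?_
          rw [← Finset.add_sum_erase _ _ hx]
          refine add_le_add ?_ ?_
          · refine Finset.sum_le_sum fun v _ => ?_
            rw [if_pos rfl]
          · calc ∑ y ∈ S.erase x, ∑ v ∈ P, (if cls v y = cls v x then Real.log (Nv v) else 0)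
                ≤ ∑ y ∈ S.erase x, Λ := by
                  refine Finset.sum_le_sum fun y hy => ?_
                  obtain ⟨hy1, hy2⟩ := Finset.mem_erase.1 hy
                  exact key x hx y hy2 (Ne.symm hy1)
              _ = ((S.card : ℝ) - 1) * Λ := by
                  rw [Finset.sum_const, nsmul_eq_mul, Finset.card_erase_of_mem hx,
                    Nat.cast_sub (by omega), Nat.cast_one]
      _ = _ := by
          rw [Finset.sum_const, nsmul_eq_mul]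
          ring
  have h4 : (S.card : ℝ) ^ 2 * ∑ v ∈ P, Real.log (Nv v) / ν v ≤
      ∑ v ∈ P, Real.log (Nv v) * (∑ x ∈ S, ((S.filter fun y => cls v y = cls v x).card : ℝ)) := by
    rw [Finset.mul_sum]
    refine Finset.sum_le_sum fun v hv => ?_
    obtain ⟨hν0, hν1⟩ := hν v hv
    have h5 := pairs_ge S (cls v) hν1
    rw [mul_div_assoc', div_le_iff₀ hν0]
    calc (S.card : ℝ) ^ 2 * Real.log (Nv v) ≤
        (ν v * ∑ x ∈ S, ((S.filter fun y => cls v y = cls v x).card : ℝ)) * Real.log (Nv v) :=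
          mul_le_mul_of_nonneg_right h5 (hlog v).le
      _ = _ := by ring
  have hS0 : (0 : ℝ) < S.card := by
    have : 0 < S.card := by omega
    exact_mod_cast this
  have h5 := h4.trans h3
  have h6 : (S.card : ℝ) * ((S.card : ℝ) * (∑ v ∈ P, Real.log (Nv v) / ν v - Λ)) ≤
      (S.card : ℝ) * ∑ v ∈ P, Real.log (Nv v) := by
    nlinarith
  exact le_of_mul_le_mul_left h6 hS0

open Classical in
/-- the coincidences of a pair which is near at the places of `V` -/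
theorem gain_key {x y : K} (hxy : x ≠ y) (P : Finset (HeightOneSpectrum (𝓞 K)))
    (V : Finset (Pl K)) (hPV : ∀ v ∈ P, (Sum.inr v : Pl K) ∉ V) :
    ∑ v ∈ P, (if cls v y = cls v x then Real.log (Nv v) else 0) +
      ∑ v ∈ V, lam v (aff x) (aff y) ≤ hr (aff x) + hr (aff y) + lossK K := by
  obtain ⟨G, hG⟩ : ∃ G : Finset (HeightOneSpectrum (𝓞 K)),
    G = P.filter fun v => cls v y = cls v x := ⟨_, rfl⟩
  have h1 := sum_lam_le (aff_ne_zero x) (aff_ne_zero y) (aff_wedge hxy)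
    ((G.map ⟨Sum.inr, Sum.inr_injective⟩ : Finset (Pl K)) ∪ V)
  rw [Finset.sum_union, Finset.sum_map] at h1
  · refine le_trans (add_le_add ?_ le_rfl) h1
    rw [← Finset.sum_filter, ← hG]
    refine Finset.sum_le_sum fun v hv => ?_
    rw [hG, Finset.mem_filter] at hv
    exact lam_ge_of_cls v hxy hv.2.symm
  · rw [Finset.disjoint_left]
    intro v hv hv'
    obtain ⟨w, hw, rfl⟩ := Finset.mem_map.1 hv
    rw [hG, Finset.mem_filter] at hw
    exact hPV w hw.1 hv'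

end

variable (K : Type) [Field K] [NumberField K]

open Classical in
/-- **the number of points of bounded height which are near each other** -/
theorem gain_bound (V : Finset (Pl K)) {δ : ℝ} (hδ : 0 < δ) {A : ℝ} (hA : 0 ≤ A) :
    ∃ C : ℝ, 0 < C ∧ ∀ H : ℝ, 0 ≤ H → ∀ S : Finset K, (∀ x ∈ S, hr (aff x) ≤ H) → ∀ t : ℝ,
      -A ≤ t → (∀ x ∈ S, ∀ y ∈ S, x ≠ y → t ≤ ∑ v ∈ V, lam v (aff x) (aff y)) →
        (S.card : ℝ) ≤ 1 + C * Real.exp (δ * H + (2 * H - t)) := by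
  obtain ⟨η, hη⟩ : ∃ η : ℝ, η = min (1 / 2) (δ / 8) := ⟨_, rfl⟩
  have hη0 : 0 < η := by rw [hη]; exact lt_min (by norm_num) (by positivity)
  have hη1 : η ≤ 1 / 2 := by rw [hη]; exact min_le_left _ _
  have hη2 : 8 * η ≤ δ := by
    have := min_le_right (1 / 2) (δ / 8)
    rw [hη]
    linarith
  obtain ⟨C1, hC1, hmert⟩ := mertens_lower K hη0
  obtain ⟨C2, hC2, htheta⟩ := theta_le K
  obtain ⟨C3, hC3, h32⟩ := sum_log_le K
  obtain ⟨Bad, hBad⟩ : ∃ Bad : Finset (Pr K), Bad = V.toRight := ⟨_, rfl⟩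
  obtain ⟨Cb, hCb⟩ : ∃ Cb : ℝ, Cb = ∑ v ∈ Bad, Real.log (Nv v) / Nv v := ⟨_, rfl⟩
  have hterm : ∀ v : Pr K, 0 ≤ Real.log (Nv v) / Nv v := fun v => by
    have h2 := log_Nv_pos v
    have h3 := Nv_pos v
    positivity
  have hCb0 : 0 ≤ Cb := by
    rw [hCb]
    exact Finset.sum_nonneg fun v _ => hterm v
  obtain ⟨ℓ, hℓ⟩ : ∃ ℓ : ℝ, ℓ = lossK K := ⟨_, rfl⟩
  have hℓ0 : 0 ≤ ℓ := by rw [hℓ]; exact lossK_nonneg K
  obtain ⟨C5, hC5⟩ : ∃ C5 : ℝ, C5 = C1 + Cb + C3 := ⟨_, rfl⟩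
  have hC50 : 0 ≤ C5 := by rw [hC5]; positivity
  refine ⟨(C2 + 1) * Real.exp (ℓ + 2 * η * (ℓ + A) + 2 * (C5 + 1)), by positivity, ?_⟩
  intro H hH S hS t htA hnear
  by_cases h2 : 2 ≤ S.card
  swap
  · have h3 : (S.card : ℝ) ≤ 1 := by
      have : S.card ≤ 1 := by omega
      exact_mod_cast this
    have : 0 ≤ (C2 + 1) * Real.exp (ℓ + 2 * η * (ℓ + A) + 2 * (C5 + 1)) *
      Real.exp (δ * H + (2 * H - t)) := by positivity
    linarith
  obtain ⟨Λ, hΛ⟩ : ∃ Λ : ℝ, Λ = 2 * H + ℓ - t := ⟨_, rfl⟩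
  have hden : (0 : ℝ) < 1 - η := by linarith
  obtain ⟨T, hT⟩ : ∃ T : ℝ, T = (Λ + C5 + 1) / (1 - η) := ⟨_, rfl⟩
  have hT' : (1 - η) * T = Λ + C5 + 1 := by
    rw [hT, mul_div_cancel₀ _ hden.ne']
  obtain ⟨P, hP⟩ : ∃ P : Finset (Pr K), P = PP K (Real.exp T) \ Bad := ⟨_, rfl⟩
  have hPV : ∀ v ∈ P, (Sum.inr v : Pl K) ∉ V := by
    intro v hv hv'
    rw [hP, Finset.mem_sdiff, hBad, Finset.mem_toRight] at hv
    exact hv.2 hv'
  have hν : ∀ v ∈ P, 0 < Nv v / 1 + 1 * Real.sqrt (Nv v) ∧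
      ((S.image (cls v)).card : ℝ) ≤ Nv v / 1 + 1 * Real.sqrt (Nv v) := by
    intro v _
    refine ⟨?_, card_cls_le v S⟩
    have := Nv_pos v
    positivity
  have hsieve := sieve_abs S P Λ (by
    intro x hx y hy hxy
    have h3 := gain_key hxy P V hPV
    have h4 := hnear x hx y hy hxy
    have h5 := hS x hx
    have h6 := hS y hy
    rw [hΛ, hℓ]
    linarith) (fun v => Nv v / 1 + 1 * Real.sqrt (Nv v)) hν h2
  obtain ⟨hΛ0, hsieve⟩ := hsieve
  have hT0 : 0 ≤ T := by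
    rw [hT]
    positivity
  -- the lower bound for the sum
  have hW : (1 - η) * T - C5 ≤
      ∑ v ∈ P, Real.log (Nv v) / (Nv v / 1 + 1 * Real.sqrt (Nv v)) := by
    have h3 : ∑ v ∈ P, ((1 : ℝ) * (Real.log (Nv v) / Nv v) -
        (1 : ℝ) ^ 2 * 1 * (Real.log (Nv v) / Nv v ^ (3 / 2 : ℝ))) ≤
        ∑ v ∈ P, Real.log (Nv v) / (Nv v / 1 + 1 * Real.sqrt (Nv v)) :=
      Finset.sum_le_sum fun v _ => inv_nu one_pos zero_le_one (two_le_Nv v) (log_Nv_pos v).le
    rw [Finset.sum_sub_distrib, ← Finset.mul_sum, ← Finset.mul_sum, one_mul, one_pow, one_mul,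
      one_mul] at h3
    have h4 := h32 P
    have h5 : ∑ v ∈ PP K (Real.exp T), Real.log (Nv v) / Nv v ≤
        ∑ v ∈ P, Real.log (Nv v) / Nv v + Cb := by
      have h6 : ∑ v ∈ PP K (Real.exp T), Real.log (Nv v) / Nv v ≤
          ∑ v ∈ P ∪ Bad, Real.log (Nv v) / Nv v := by
        refine Finset.sum_le_sum_of_subset_of_nonneg ?_ fun v _ _ => hterm v
        intro v hv
        rw [Finset.mem_union]
        by_cases h : v ∈ Bad
        · exact Or.inr h
        · left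
          rw [hP, Finset.mem_sdiff]
          exact ⟨hv, h⟩
      have h7 : ∑ v ∈ P ∪ Bad, Real.log (Nv v) / Nv v ≤
          ∑ v ∈ P, Real.log (Nv v) / Nv v + ∑ v ∈ Bad, Real.log (Nv v) / Nv v := by
        rw [← Finset.sum_union_inter]
        have : 0 ≤ ∑ v ∈ P ∩ Bad, Real.log (Nv v) / Nv v := Finset.sum_nonneg fun v _ => hterm v
        linarith
      rw [hCb]
      linarith
    have h6 := hmert (Real.exp T) (Real.one_le_exp hT0)
    rw [Real.log_exp] at h6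
    rw [hC5]
    linarith
  have hW1 : 1 ≤ ∑ v ∈ P, Real.log (Nv v) / (Nv v / 1 + 1 * Real.sqrt (Nv v)) - Λ := by
    linarith
  have hΘ : ∑ v ∈ P, Real.log (Nv v) ≤ C2 * Real.exp T := by
    refine le_trans (Finset.sum_le_sum_of_subset_of_nonneg ?_ fun v _ _ => (log_Nv_pos v).le)
      (htheta (Real.exp T) (Real.exp_pos T).le)
    rw [hP]
    exact Finset.sdiff_subset
  have hS1 : (S.card : ℝ) ≤ C2 * Real.exp T := by
    have h3 : (S.card : ℝ) * 1 ≤ (S.card : ℝ) *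
        (∑ v ∈ P, Real.log (Nv v) / (Nv v / 1 + 1 * Real.sqrt (Nv v)) - Λ) :=
      mul_le_mul_of_nonneg_left hW1 (Nat.cast_nonneg _)
    linarith
  have hT1 : T ≤ ℓ + 2 * η * (ℓ + A) + 2 * (C5 + 1) + (δ * H + (2 * H - t)) := by
    rw [hT, div_le_iff₀ hden]
    have h3 : Λ ≤ 2 * H + (ℓ + A) := by linarith
    have h4 : Λ ≤ (Λ + 2 * η * Λ) * (1 - η) := by
      have : (Λ + 2 * η * Λ) * (1 - η) = Λ + η * Λ * (1 - 2 * η) := by ring
      rw [this]
      have : 0 ≤ η * Λ * (1 - 2 * η) := mul_nonneg (by positivity) (by linarith)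
      linarith
    have h5 : C5 + 1 ≤ 2 * (C5 + 1) * (1 - η) := by nlinarith
    have h6 : 2 * η * Λ ≤ δ * H + 2 * η * (ℓ + A) := by
      have h7 : 2 * η * Λ ≤ 2 * η * (2 * H + (ℓ + A)) :=
        mul_le_mul_of_nonneg_left h3 (by positivity)
      have h8 : 4 * η * H ≤ δ * H := by nlinarith
      linarith
    have h9 : Λ + 2 * η * Λ + 2 * (C5 + 1) ≤
        ℓ + 2 * η * (ℓ + A) + 2 * (C5 + 1) + (δ * H + (2 * H - t)) := by
      rw [hΛ] at h6 ⊢
      linarith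
    have h10 := mul_le_mul_of_nonneg_right h9 hden.le
    nlinarith
  calc (S.card : ℝ) ≤ C2 * Real.exp T := hS1
    _ ≤ (C2 + 1) * Real.exp (ℓ + 2 * η * (ℓ + A) + 2 * (C5 + 1) + (δ * H + (2 * H - t))) := by
        refine mul_le_mul (by linarith) (Real.exp_le_exp.2 hT1) (Real.exp_pos _).le (by linarith)
    _ = (C2 + 1) * Real.exp (ℓ + 2 * η * (ℓ + A) + 2 * (C5 + 1)) *
        Real.exp (δ * H + (2 * H - t)) := by
        rw [Real.exp_add (ℓ + 2 * η * (ℓ + A) + 2 * (C5 + 1)), ← mul_assoc]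
    _ ≤ _ := by linarith

end Pool.Agent.N751.PR
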