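import Mathlib
import Pool.Agent.H691R3.Places

/-!
# Many points near the zeros of a polynomial

If `q + 1` points are near the zeros of a polynomial of degree at most `q`, two of them are near
each other, by Lagrange's interpolation formula.
-/

set_option autoImplicit false

namespace Pool.Agent.N751.PR

open Finset Polynomial Pool.Agent.H691R3

variable {K : Type} [Field K]

open Classical in
/-- Lagrange's interpolation formula -/
theorem lagrange (g : K[X]) (s : Finset K) (h : g.natDegree < s.card) (c : K) :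
    g.eval c = ∑ x ∈ s, g.eval x * ∏ y ∈ s.erase x, ((x - y)⁻¹ * (c - y)) := by
  have h1 : g.degree < s.card := by
    refine lt_of_le_of_lt degree_le_natDegree ?_
    exact_mod_cast h
  have h2 := Lagrange.eq_interpolate (s := s) (v := fun x : K => x) (f := g)
    (fun x _ y _ hxy => hxy) h1
  conv_lhs => rw [h2]
  rw [Lagrange.interpolate_apply, eval_finset_sum]
  refine Finset.sum_congr rfl fun x _ => ?_
  rw [eval_mul, eval_C]
  congr 1
  unfold Lagrange.basis
  rw [eval_prod]
  refine Finset.prod_congr rfl fun y _ => ?_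
  unfold Lagrange.basisDivisor
  rw [eval_mul, eval_C, eval_sub, eval_X, eval_C]

open Classical in
/-- two of `q + 1` points near the zeros are near each other -/
theorem near (a : AbsoluteValue K ℝ) (g : K[X]) {q : ℕ} (hq : g.natDegree ≤ q) (s : Finset K)
    (hs : s.card = q + 1) (c : K) (hc : g.eval c ≠ 0) (hg : ∀ x ∈ s, g.eval x ≠ 0) :
    ∃ x ∈ s, Real.log ((max (a x) 1) ^ q / a (g.eval x)) + Real.log (a (g.eval c)) ≤
      ∑ y ∈ s.erase x, lamA a (aff x) (aff y) + Real.log ((q + 1) * (a c + 1) ^ q) := by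
  obtain ⟨T, hT⟩ : ∃ T : K → ℝ, T = fun x => a (g.eval x) *
    ∏ y ∈ s.erase x, ((a c + 1) * max (a y) 1 / a (x - y)) := ⟨_, rfl⟩
  have h1 : a (g.eval c) ≤ ∑ x ∈ s, T x := by
    rw [lagrange g s (by omega) c, hT]
    refine (IsAbsoluteValue.abv_sum a _ _).trans (Finset.sum_le_sum fun x hx => ?_)
    rw [map_mul, map_prod]
    refine mul_le_mul_of_nonneg_left ?_ (a.nonneg _)
    refine Finset.prod_le_prod (fun y _ => a.nonneg _) fun y hy => ?_
    have hxy : x - y ≠ 0 := sub_ne_zero.2 (Finset.ne_of_mem_erase hy).symm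
    rw [map_mul, map_inv₀, inv_mul_eq_div]
    refine div_le_div_of_nonneg_right ?_ (a.nonneg _)
    have h2 : a (c - y) ≤ a c + a y := by
      rw [sub_eq_add_neg]
      refine (a.add_le _ _).trans ?_
      rw [AbsoluteValue.map_neg]
    have h3 : a y ≤ max (a y) 1 := le_max_left _ _
    have h4 : (1 : ℝ) ≤ max (a y) 1 := le_max_right _ _
    have h5 : 0 ≤ a c := a.nonneg _
    nlinarith
  obtain ⟨x, hx, hxT⟩ : ∃ x ∈ s, a (g.eval c) ≤ (q + 1) * T x := by
    by_contra hcon
    push Not at hcon
    have hne : s.Nonempty := by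
      rw [← Finset.card_pos]
      omega
    have h2 : ∑ x ∈ s, ((q : ℝ) + 1) * T x < ∑ _x ∈ s, a (g.eval c) :=
      Finset.sum_lt_sum_of_nonempty hne hcon
    rw [← Finset.mul_sum, Finset.sum_const, hs, nsmul_eq_mul] at h2
    push_cast at h2
    have h3 : (0 : ℝ) < q + 1 := by positivity
    have h4 := mul_le_mul_of_nonneg_left h1 h3.le
    linarith
  refine ⟨x, hx, ?_⟩
  have hgx : 0 < a (g.eval x) := a.pos (hg x hx)
  have hgc : 0 < a (g.eval c) := a.pos hc
  have hm : ∀ y : K, 0 < max (a y) 1 := fun y => lt_max_of_lt_right one_pos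
  have hc1 : 0 < a c + 1 := by
    have := a.nonneg c
    linarith
  have hcard : (s.erase x).card = q := by
    rw [Finset.card_erase_of_mem hx, hs]
    rfl
  have hpos : ∀ y ∈ s.erase x, 0 < a (x - y) := fun y hy =>
    a.pos (sub_ne_zero.2 (Finset.ne_of_mem_erase hy).symm)
  have hTx : 0 < T x := by
    rw [hT]
    refine mul_pos hgx (Finset.prod_pos fun y hy => ?_)
    exact div_pos (mul_pos hc1 (hm y)) (hpos y hy)
  have h2 : Real.log (a (g.eval c)) ≤ Real.log ((q + 1) * T x) := Real.log_le_log hgc hxT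
  have h3 : ∑ y ∈ s.erase x, lamA a (aff x) (aff y) =
      q * Real.log (max (a x) 1) + ∑ y ∈ s.erase x, Real.log (max (a y) 1 / a (x - y)) := by
    have h4 : ∀ y ∈ s.erase x, lamA a (aff x) (aff y) =
        Real.log (max (a x) 1) + Real.log (max (a y) 1 / a (x - y)) := by
      intro y hy
      unfold lamA aff
      rw [← Real.log_mul (hm x).ne' (div_pos (hm y) (hpos y hy)).ne']
      congr 1
      simp only [mul_one, one_mul, map_one]
      rw [mul_div_assoc]
    rw [Finset.sum_congr rfl h4, Finset.sum_add_distrib, Finset.sum_const, hcard, nsmul_eq_mul]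
  have h5 : Real.log (T x) = Real.log (a (g.eval x)) + (q * Real.log (a c + 1) +
      ∑ y ∈ s.erase x, Real.log (max (a y) 1 / a (x - y))) := by
    rw [hT]
    beta_reduce
    rw [Real.log_mul hgx.ne' (Finset.prod_pos fun y hy =>
      div_pos (mul_pos hc1 (hm y)) (hpos y hy)).ne', Real.log_prod (fun y hy =>
      (div_pos (mul_pos hc1 (hm y)) (hpos y hy)).ne')]
    congr 1
    have h6 : ∀ y ∈ s.erase x, Real.log ((a c + 1) * max (a y) 1 / a (x - y)) =
        Real.log (a c + 1) + Real.log (max (a y) 1 / a (x - y)) := by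
      intro y hy
      rw [mul_div_assoc, Real.log_mul hc1.ne' (div_pos (hm y) (hpos y hy)).ne']
    rw [Finset.sum_congr rfl h6, Finset.sum_add_distrib, Finset.sum_const, hcard, nsmul_eq_mul]
  have hq1 : (0 : ℝ) < q + 1 := by positivity
  rw [Real.log_mul hq1.ne' hTx.ne', h5] at h2
  rw [h3, Real.log_div (pow_pos (hm x) _).ne' hgx.ne', Real.log_pow,
    Real.log_mul hq1.ne' (pow_pos hc1 _).ne', Real.log_pow]
  linarith

end Pool.Agent.N751.PR
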