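import Mathlib
import Pool.Agent.N751.PR.Gain
import Pool.Agent.N751.PR.Cluster
import Pool.Agent.N751.PR.Lag

/-!
# The number of points near the zeros of a polynomial in one variable
-/

set_option autoImplicit false

namespace Pool.Agent.N751.PR

open NumberField IsDedekindDomain Finset Polynomial Pool.Agent.H691R3 Pool.Agent.TH876.Loc
  Pool.Agent.N753.LS

variable {K : Type} [Field K] [NumberField K]

/-- the absolute value of a place -/
noncomputable def avp (v : Pl K) : AbsoluteValue K ℝ :=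
  Sum.elim (fun w : InfinitePlace K => w.1) (fun v : HeightOneSpectrum (𝓞 K) => fv v) v

/-- the weight of a place -/
noncomputable def wtp (v : Pl K) : ℝ :=
  Sum.elim (fun w : InfinitePlace K => (w.mult : ℝ)) (fun _ : HeightOneSpectrum (𝓞 K) => (1 : ℝ)) v

theorem lam_eq' (v : Pl K) (p r : K × K) : lam v p r = wtp v * lamA (avp v) p r := by
  rcases v with w | v
  · rfl
  · show lamA (fv v) p r = 1 * lamA (fv v) p r
    rw [one_mul]

theorem one_le_wtp (v : Pl K) : 1 ≤ wtp v := by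
  rcases v with w | v
  · show (1 : ℝ) ≤ (w.mult : ℝ)
    exact_mod_cast InfinitePlace.mult_pos
  · exact le_rfl

/-- the local height of `x` with respect to the zeros of `g`, normalised at `c` -/
noncomputable def rho (q : ℕ) (c : K) (g : K[X]) (v : Pl K) (x : K) : ℝ :=
  wtp v * (Real.log ((max (avp v x) 1) ^ q / avp v (g.eval x)) + Real.log (avp v (g.eval c)))

/-- the constant of a place -/
noncomputable def Cv (q : ℕ) (c : K) (v : Pl K) : ℝ :=
  wtp v * Real.log ((q + 1) * (avp v c + 1) ^ q)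

theorem Cv_nonneg (q : ℕ) (c : K) (v : Pl K) : 0 ≤ Cv q c v := by
  refine mul_nonneg (by linarith [one_le_wtp v]) (Real.log_nonneg ?_)
  have h1 : (1 : ℝ) ≤ q + 1 := by
    have : (0 : ℝ) ≤ q := Nat.cast_nonneg q
    linarith
  have h2 : (1 : ℝ) ≤ (avp v c + 1) ^ q := one_le_pow₀ (by
    have := (avp v).nonneg c
    linarith)
  nlinarith

open Classical in
/-- among `q + 1` points two are near -/
theorem near_pair {q : ℕ} (hq : 1 ≤ q) (c : K) (g : K[X]) (hg : g.natDegree ≤ q)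
    (hc : g.eval c ≠ 0) (v : Pl K) {r : ℝ} (T : Finset K) (hT : T.card = q + 1)
    (hT0 : ∀ x ∈ T, g.eval x ≠ 0) (hr : ∀ x ∈ T, r ≤ rho q c g v x) :
    ∃ x ∈ T, ∃ y ∈ T, x ≠ y ∧ (r - Cv q c v) / q ≤ lam v (aff x) (aff y) := by
  obtain ⟨x, hx, h⟩ := near (avp v) g hg T hT c hc hT0
  have hw := one_le_wtp v
  have h1 := mul_le_mul_of_nonneg_left h (show 0 ≤ wtp v by linarith)
  have h2 : r - Cv q c v ≤ ∑ y ∈ T.erase x, lam v (aff x) (aff y) := by
    have h3 := hr x hx
    have h4 : ∑ y ∈ T.erase x, lam v (aff x) (aff y) =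
        wtp v * ∑ y ∈ T.erase x, lamA (avp v) (aff x) (aff y) := by
      rw [Finset.mul_sum]
      exact Finset.sum_congr rfl fun y _ => lam_eq' v _ _
    unfold rho at h3
    unfold Cv
    rw [h4]
    rw [mul_add (wtp v) (∑ y ∈ T.erase x, lamA (avp v) (aff x) (aff y))] at h1
    linarith
  have hqR : (0 : ℝ) < q := by exact_mod_cast hq
  have hcard : (T.erase x).card = q := by
    rw [Finset.card_erase_of_mem hx, hT]
    rfl
  by_contra hcon
  push Not at hcon
  have hne : (T.erase x).Nonempty := by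
    rw [← Finset.card_pos, hcard]
    omega
  have h3 : ∑ y ∈ T.erase x, lam v (aff x) (aff y) < ∑ _y ∈ T.erase x, (r - Cv q c v) / q :=
    Finset.sum_lt_sum_of_nonempty hne fun y hy =>
      hcon x hx y (Finset.mem_of_mem_erase hy) (Finset.ne_of_mem_erase hy).symm
  rw [Finset.sum_const, hcard, nsmul_eq_mul, mul_div_cancel₀ _ hqR.ne'] at h3
  linarith

open Classical in
/-- **the number of points near the zeros of a polynomial** -/
theorem count1 (V : Finset (Pl K)) {q : ℕ} (hq : 1 ≤ q) (c : K) {τ δ : ℝ} (hτ : 0 < τ)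
    (hτ1 : τ ≤ 2 * q) (hδ : 0 < δ) :
    ∃ C : ℝ, 0 < C ∧ ∀ H : ℝ, 0 ≤ H → ∀ g : K[X], g.natDegree ≤ q → g.eval c ≠ 0 →
      ∀ S : Finset K, (∀ x ∈ S, hr (aff x) ≤ H ∧ g.eval x ≠ 0 ∧
        τ * H ≤ ∑ v ∈ V, rho q c g v x) →
          (S.card : ℝ) ≤ C * Real.exp ((2 - τ / (2 * q) + δ) * H) := by
  have hqR : (1 : ℝ) ≤ q := by exact_mod_cast hq
  obtain ⟨A, hA⟩ : ∃ A : ℝ, A = ∑ v ∈ V, (Cv q c v + loss v) := ⟨_, rfl⟩
  have hA0 : 0 ≤ A := by
    rw [hA]
    exact Finset.sum_nonneg fun v _ => add_nonneg (Cv_nonneg q c v) (loss_nonneg v)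
  obtain ⟨C0, hC0, hall⟩ := count_all K (δ := 1) one_pos
  obtain ⟨C1, hC1, hgain⟩ := gain_bound K V hδ hA0
  obtain ⟨n, hn⟩ : ∃ n : ℕ, n = V.card := ⟨_, rfl⟩
  obtain ⟨K0, hK0⟩ : ∃ K0 : ℕ, K0 = 2 * (n + 1) := ⟨_, rfl⟩
  obtain ⟨M, hM⟩ : ∃ M : ℝ, M = ((K0 + 1) ^ n : ℕ) := ⟨_, rfl⟩
  have hM1 : 1 ≤ M := by
    rw [hM]
    exact_mod_cast Nat.one_le_iff_ne_zero.2 (pow_pos (Nat.succ_pos K0) n).ne'
  have hqn : (1 : ℝ) ≤ (q : ℝ) ^ n := one_le_pow₀ hqR
  refine ⟨C0 + M * ((q : ℝ) ^ n * (1 + C1 * Real.exp A)), by positivity, ?_⟩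
  intro H hH g hg hgc S hS
  have hexp1 : 1 ≤ Real.exp ((2 - τ / (2 * q) + δ) * H) := by
    refine Real.one_le_exp (mul_nonneg ?_ hH)
    have : τ / (2 * q) ≤ 1 := by
      rw [div_le_one (by positivity)]
      exact hτ1
    linarith
  rcases hH.eq_or_lt with rfl | hHpos
  · have h1 := hall 0 le_rfl S (fun x hx => (hS x hx).1)
    rw [mul_zero, Real.exp_zero, mul_one] at h1 ⊢
    have : 0 ≤ M * ((q : ℝ) ^ n * (1 + C1 * Real.exp A)) := by positivity
    linarith
  rcases S.eq_empty_or_nonempty with hSe | hSne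
  · rw [hSe, Finset.card_empty, Nat.cast_zero]
    positivity
  -- the levels
  obtain ⟨θ, hθ⟩ : ∃ θ : ℝ, θ = τ / K0 := ⟨_, rfl⟩
  have hK0R : (0 : ℝ) < K0 := by
    rw [hK0]
    positivity
  have hθ0 : 0 < θ := by rw [hθ]; positivity
  have hθK : K0 * θ = τ := by rw [hθ]; field_simp
  have hθH : 0 < θ * H := by positivity
  obtain ⟨kv, hkv⟩ : ∃ kv : K → Pl K → ℕ, kv = fun x v =>
    min ⌊rho q c g v x / (θ * H)⌋₊ K0 := ⟨_, rfl⟩
  obtain ⟨k, -, hk⟩ := Finset.exists_le_card_fiber_of_nsmul_le_card_of_maps_to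
    (s := S) (t := (Finset.univ : Finset (V → Fin (K0 + 1))))
    (f := fun x => fun v : V => (⟨kv x v.1, by
      rw [hkv]
      exact Nat.lt_succ_of_le (min_le_right _ _)⟩ : Fin (K0 + 1))) (b := (S.card : ℝ) / M)
    (fun x _ => Finset.mem_univ _) Finset.univ_nonempty (by
      rw [Finset.card_univ, Fintype.card_fun, Fintype.card_fin, Fintype.card_coe, ← hn,
        nsmul_eq_mul, ← hM, mul_div_cancel₀ _ (by linarith : M ≠ 0)])
  obtain ⟨S1, hS1⟩ : ∃ S1 : Finset K, S1 = S.filter (fun x => (fun v : V => (⟨kv x v.1, by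
      rw [hkv]
      exact Nat.lt_succ_of_le (min_le_right _ _)⟩ : Fin (K0 + 1))) = k) := ⟨_, rfl⟩
  rw [← hS1, div_le_iff₀ (by linarith)] at hk
  -- the level as a function on all places
  obtain ⟨lev, hlev⟩ : ∃ lev : Pl K → ℕ, lev = fun v => if h : v ∈ V then (k ⟨v, h⟩ : ℕ) else 0 :=
    ⟨_, rfl⟩
  have hS1S : S1 ⊆ S := by
    rw [hS1]
    exact Finset.filter_subset _ _
  have hS1k : ∀ x ∈ S1, ∀ v ∈ V, kv x v = lev v := by
    intro x hx v hv
    rw [hS1, Finset.mem_filter] at hx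
    have h1 := congrFun hx.2 ⟨v, hv⟩
    have h2 := congrArg Fin.val h1
    rw [hlev]
    beta_reduce
    rw [dif_pos hv]
    exact h2
  have hS1ne : S1.Nonempty := by
    rw [← Finset.card_pos]
    by_contra hcon
    have h0 : S1.card = 0 := by omega
    rw [h0, Nat.cast_zero, zero_mul] at hk
    have : (0 : ℝ) < S.card := by exact_mod_cast Finset.card_pos.2 hSne
    linarith
  have hlow : ∀ x ∈ S1, ∀ v ∈ V, 1 ≤ lev v → lev v * (θ * H) ≤ rho q c g v x := by
    intro x hx v hv hl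
    rw [← hS1k x hx v hv] at hl ⊢
    rw [hkv] at hl ⊢
    beta_reduce at hl ⊢
    have h1 : 1 ≤ ⌊rho q c g v x / (θ * H)⌋₊ := hl.trans (min_le_left _ _)
    have h2 : 0 ≤ rho q c g v x / (θ * H) := by
      by_contra hcon
      rw [not_le] at hcon
      rw [Nat.floor_of_nonpos hcon.le] at h1
      omega
    have h3 : ((min ⌊rho q c g v x / (θ * H)⌋₊ K0 : ℕ) : ℝ) ≤ rho q c g v x / (θ * H) := by
      refine le_trans ?_ (Nat.floor_le h2)
      exact_mod_cast min_le_left _ _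
    rwa [le_div_iff₀ hθH] at h3
  have hsum : τ * H / 2 ≤ ∑ v ∈ V, (lev v : ℝ) * (θ * H) := by
    obtain ⟨x, hx⟩ := hS1ne
    have h0 := (hS x (hS1S hx)).2.2
    by_cases hex : ∃ v ∈ V, lev v = K0
    · obtain ⟨v, hv, hv0⟩ := hex
      have h1 : (lev v : ℝ) * (θ * H) ≤ ∑ v ∈ V, (lev v : ℝ) * (θ * H) :=
        Finset.single_le_sum (f := fun v => (lev v : ℝ) * (θ * H))
          (fun v _ => by positivity) hv
      rw [hv0, ← mul_assoc, hθK] at h1
      have : 0 ≤ τ * H := by positivity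
      linarith
    · push Not at hex
      have h1 : ∀ v ∈ V, rho q c g v x ≤ (lev v : ℝ) * (θ * H) + θ * H := by
        intro v hv
        have h2 := hex v hv
        rw [← hS1k x hx v hv, hkv] at h2 ⊢
        beta_reduce at h2 ⊢
        have h3 : min ⌊rho q c g v x / (θ * H)⌋₊ K0 = ⌊rho q c g v x / (θ * H)⌋₊ := by
          rcases min_choice ⌊rho q c g v x / (θ * H)⌋₊ K0 with h | h
          · exact h
          · exact absurd h h2
        rw [h3]
        have h4 := (Nat.lt_floor_add_one (rho q c g v x / (θ * H))).le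
        rw [div_le_iff₀ hθH] at h4
        linarith
      have h2 := Finset.sum_le_sum h1
      rw [Finset.sum_add_distrib, Finset.sum_const, ← hn, nsmul_eq_mul] at h2
      have h3 : (n : ℝ) * (θ * H) ≤ τ * H / 2 := by
        have h4 : (n : ℝ) * θ ≤ τ / 2 := by
          have h5 : ((K0 : ℕ) : ℝ) = 2 * (n + 1) := by rw [hK0]; push_cast; ring
          rw [h5] at hθK
          nlinarith
        nlinarith
      linarith
  -- the places where the points are near
  obtain ⟨V1, hV1⟩ : ∃ V1 : Finset (Pl K), V1 = V.filter fun v => 1 ≤ lev v := ⟨_, rfl⟩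
  have hV1V : ∀ v ∈ V1, v ∈ V ∧ 1 ≤ lev v := by
    intro v hv
    rw [hV1, Finset.mem_filter] at hv
    exact hv
  obtain ⟨S2, hS2, hc2, hnear⟩ := many_places V1 (fun v x y => lam v (aff x) (aff y)) (q := q)
    (fun v => ((lev v : ℝ) * (θ * H) - Cv q c v) / q) (fun v => loss v) loss_nonneg
    (fun v x y => lam_comm v _ _) S1 (by
      intro v _ x _ y _ z _ hxy hxz hzy h1 h2
      exact lam_triangle v (aff_ne_zero x) (aff_ne_zero z) (aff_ne_zero y) (aff_wedge hxy)
        (aff_wedge hxz) (aff_wedge hzy) _ h1 h2) (by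
      intro v hv T hT hTc
      obtain ⟨hvV, hvl⟩ := hV1V v hv
      exact near_pair hq c g hg hgc v T hTc (fun x hx => (hS x (hS1S (hT hx))).2.1)
        (fun x hx => hlow x (hT hx) v hvV hvl))
  have hpair : ∀ x ∈ S2, ∀ y ∈ S2, x ≠ y →
      τ / (2 * q) * H - A ≤ ∑ v ∈ V, lam v (aff x) (aff y) := by
    intro x hx y hy hxy
    have h1 : ∀ v ∈ V, ((lev v : ℝ) * (θ * H)) / q - (Cv q c v + loss v) ≤
        lam v (aff x) (aff y) := by
      intro v hv
      by_cases hl : 1 ≤ lev v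
      · have h2 := hnear v (by rw [hV1, Finset.mem_filter]; exact ⟨hv, hl⟩) x hx y hy hxy
        refine le_trans ?_ h2
        rw [sub_div]
        have h3 : Cv q c v / q ≤ Cv q c v := div_le_self (Cv_nonneg q c v) hqR
        linarith
      · have h2 : lev v = 0 := by omega
        rw [h2, Nat.cast_zero, zero_mul, zero_div]
        have h3 := lam_ge v (aff_ne_zero x) (aff_ne_zero y) (aff_wedge hxy)
        linarith [Cv_nonneg q c v]
    refine le_trans ?_ (Finset.sum_le_sum h1)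
    rw [Finset.sum_sub_distrib, ← hA, ← Finset.sum_div]
    have h2 := div_le_div_of_nonneg_right hsum (show (0 : ℝ) ≤ q by linarith)
    have h3 : τ / (2 * q) * H = τ * H / 2 / q := by
      field_simp
    rw [h3]
    linarith
  have hS2b := hgain H hH S2 (fun x hx => (hS x (hS1S (hS2 hx))).1) (τ / (2 * q) * H - A) (by
    have : 0 ≤ τ / (2 * q) * H := by positivity
    linarith) hpair
  have h5 : Real.exp (δ * H + (2 * H - (τ / (2 * q) * H - A))) =
      Real.exp A * Real.exp ((2 - τ / (2 * q) + δ) * H) := by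
    rw [← Real.exp_add]
    congr 1
    ring
  rw [h5] at hS2b
  obtain ⟨E, hE⟩ : ∃ E : ℝ, E = Real.exp ((2 - τ / (2 * q) + δ) * H) := ⟨_, rfl⟩
  rw [← hE] at hS2b hexp1 ⊢
  have h6 : (S2.card : ℝ) ≤ (1 + C1 * Real.exp A) * E := by
    have : (1 : ℝ) + C1 * (Real.exp A * E) ≤ (1 + C1 * Real.exp A) * E := by
      have : (1 + C1 * Real.exp A) * E = E + C1 * (Real.exp A * E) := by ring
      linarith
    linarith
  have h7 : (S1.card : ℝ) ≤ (q : ℝ) ^ n * ((1 + C1 * Real.exp A) * E) := by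
    have h8 : (S1.card : ℝ) ≤ (q : ℝ) ^ V1.card * S2.card := by exact_mod_cast hc2
    have h9 : (q : ℝ) ^ V1.card ≤ (q : ℝ) ^ n := by
      refine pow_le_pow_right₀ hqR ?_
      rw [hn, hV1]
      exact Finset.card_filter_le _ _
    exact h8.trans (mul_le_mul h9 h6 (Nat.cast_nonneg _) (by positivity))
  calc (S.card : ℝ) ≤ S1.card * M := hk
    _ ≤ ((q : ℝ) ^ n * ((1 + C1 * Real.exp A) * E)) * M :=
        mul_le_mul_of_nonneg_right h7 (by linarith)
    _ = (M * ((q : ℝ) ^ n * (1 + C1 * Real.exp A))) * E := by ring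
    _ ≤ _ := by
        refine mul_le_mul_of_nonneg_right ?_ (by linarith)
        linarith

end Pool.Agent.N751.PR
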