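import Mathlib
import Pool.Agent.N751.PR.One

/-!
# The number of points near a hypersurface in a product of lines
-/

set_option autoImplicit false

namespace Pool.Agent.N751.PR

open NumberField IsDedekindDomain Finset Pool.Agent.H691R3 Pool.Agent.TH876.Loc
  Pool.Agent.N753.LS MvPolynomial Height

variable {K : Type} [Field K] [NumberField K]

/-- the local height with respect to `G = 0`, of multidegree `(q, …, q)` -/
noncomputable def lamG {m : ℕ} (q : ℕ) (G : MvPolynomial (Fin m) K) (v : Pl K) (x : Fin m → K) :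
    ℝ :=
  wtp v * Real.log ((∏ i, max (avp v (x i)) 1) ^ q / avp v (eval x G))

/-- the polynomial in one variable -/
noncomputable def fib {m : ℕ} (G : MvPolynomial (Fin (m + 1)) K) (x : Fin m → K) :
    Polynomial K := (finSuccEquiv K m G).map (eval x)

/-- the polynomial with a value for the first variable -/
noncomputable def spec {m : ℕ} (G : MvPolynomial (Fin (m + 1)) K) (c : K) :
    MvPolynomial (Fin m) K := (finSuccEquiv K m G).eval (C c)

omit [NumberField K] in
theorem eval_fib {m : ℕ} (G : MvPolynomial (Fin (m + 1)) K) (x : Fin m → K) (y : K) :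
    (fib G x).eval y = eval (Fin.cons y x : Fin (m + 1) → K) G := by
  rw [eval_eq_eval_mv_eval']
  rfl

omit [NumberField K] in
theorem eval_spec {m : ℕ} (G : MvPolynomial (Fin (m + 1)) K) (x : Fin m → K) (c : K) :
    eval x (spec G c) = (fib G x).eval c := by
  unfold spec fib
  rw [Polynomial.eval_map, ← Polynomial.eval₂_at_apply, eval_C]

omit [NumberField K] in
theorem natDegree_fib {m : ℕ} (G : MvPolynomial (Fin (m + 1)) K) (x : Fin m → K) :
    (fib G x).natDegree ≤ degreeOf 0 G := by
  rw [← natDegree_finSuccEquiv]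
  exact Polynomial.natDegree_map_le

omit [NumberField K] in
theorem degreeOf_spec {m : ℕ} (G : MvPolynomial (Fin (m + 1)) K) (c : K) (j : Fin m) {q : ℕ}
    (hG : degreeOf j.succ G ≤ q) : degreeOf j (spec G c) ≤ q := by
  unfold spec
  rw [Polynomial.eval_eq_sum_range]
  refine (degreeOf_sum_le _ _ _).trans (Finset.sup_le fun i _ => ?_)
  rw [← map_pow]
  refine (degreeOf_mul_C_le _ _ _).trans ?_
  exact (degreeOf_coeff_finSuccEquiv G j i).trans hG

/-- the product formula for the local heights -/
theorem lamG_sub {m : ℕ} (q : ℕ) (G : MvPolynomial (Fin (m + 1)) K) (v : Pl K) (y c : K)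
    (x : Fin m → K) (h1 : (fib G x).eval y ≠ 0) (h2 : (fib G x).eval c ≠ 0) :
    lamG q G v (Fin.cons y x) - lamG q (spec G c) v x = rho q c (fib G x) v y := by
  unfold lamG rho
  rw [← mul_sub, eval_spec, ← eval_fib, Fin.prod_univ_succ]
  simp only [Fin.cons_zero, Fin.cons_succ]
  congr 1
  have hm : ∀ z : K, 0 < max (avp v z) 1 := fun z => lt_max_of_lt_right one_pos
  have hP : 0 < ∏ i, max (avp v (x i)) 1 := Finset.prod_pos fun i _ => hm _
  have h3 : 0 < avp v ((fib G x).eval y) := (avp v).pos h1
  have h4 : 0 < avp v ((fib G x).eval c) := (avp v).pos h2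
  rw [mul_pow, Real.log_div (mul_pos (pow_pos (hm y) _) (pow_pos hP _)).ne' h3.ne',
    Real.log_div (pow_pos hP _).ne' h4.ne', Real.log_div (pow_pos (hm y) _).ne' h3.ne',
    Real.log_mul (pow_pos (hm y) _).ne' (pow_pos hP _).ne']
  ring

omit [NumberField K] in
open Classical in
/-- counting by fibres over the last coordinates -/
theorem card_fibres {m : ℕ} (S : Finset (Fin (m + 1) → K)) (M : ℝ)
    (hM : ∀ x ∈ S.image Fin.tail, (((S.filter fun y => Fin.tail y = x).image
      fun y => y 0).card : ℝ) ≤ M) :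
    (S.card : ℝ) ≤ (S.image Fin.tail).card * M := by
  have h1 : (S.card : ℝ) = ∑ x ∈ S.image Fin.tail, ((S.filter fun y => Fin.tail y = x).card : ℝ) := by
    have := Finset.card_eq_sum_card_image (Fin.tail (α := fun _ => K)) S
    exact_mod_cast this
  rw [h1, ← nsmul_eq_mul, ← Finset.sum_const]
  refine Finset.sum_le_sum fun x hx => ?_
  refine le_trans (le_of_eq ?_) (hM x hx)
  rw [Finset.card_image_of_injOn]
  intro y hy z hz hyz
  rw [Finset.mem_coe, Finset.mem_filter] at hy hz
  have h2 : y 0 = z 0 := hyz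
  rw [← Fin.cons_self_tail y, ← Fin.cons_self_tail z, hy.2, hz.2, h2]

open Classical in
/-- **the number of points near a hypersurface** -/
theorem countM (m : ℕ) : ∀ {e : ℝ}, 0 < e → ∃ ν : ℝ, 0 < ν ∧
    ∀ q : ℕ, 1 ≤ q → ∀ (V : Finset (Pl K)) (G : MvPolynomial (Fin m) K),
      (∀ i, degreeOf i G ≤ q) → ∃ C : ℝ, 0 < C ∧
      ∀ H : ℝ, 0 ≤ H → ∀ S : Finset (Fin m → K), (∀ x ∈ S, (∀ i, logHeight₁ (x i) ≤ H) ∧
        eval x G ≠ 0 ∧ e * q * H ≤ ∑ v ∈ V, lamG q G v x) →
          (S.card : ℝ) ≤ C * Real.exp ((2 * m - ν) * H) := by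
  induction m with
  | zero =>
    intro e he
    refine ⟨1, one_pos, fun q hq V G _ => ?_⟩
    have hqR : (1 : ℝ) ≤ q := by exact_mod_cast hq
    have hτ : 0 < e * q := by positivity
    obtain ⟨L, hL⟩ : ∃ L : ℝ, L = |∑ v ∈ V, lamG q G v default| := ⟨_, rfl⟩
    refine ⟨Real.exp (L / (e * q)), Real.exp_pos _, fun H hH S hS => ?_⟩
    have hcard : S.card ≤ 1 := by
      refine Finset.card_le_one.2 fun x _ y _ => Subsingleton.elim x y
    rcases S.eq_empty_or_nonempty with h0 | ⟨x, hx⟩
    · rw [h0, Finset.card_empty, Nat.cast_zero]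
      positivity
    · have h1 := (hS x hx).2.2
      have hxd : x = default := Subsingleton.elim _ _
      rw [hxd] at h1
      have h2 : H ≤ L / (e * q) := by
        rw [le_div_iff₀ hτ, mul_comm, hL]
        exact h1.trans (le_abs_self _)
      have h3 : (S.card : ℝ) ≤ 1 := by exact_mod_cast hcard
      refine h3.trans ?_
      rw [← Real.exp_add]
      refine Real.one_le_exp ?_
      push_cast
      linarith
  | succ m ih =>
    intro e0 he0
    -- make `e` small
    obtain ⟨e, hed⟩ : ∃ e : ℝ, e = min e0 1 := ⟨_, rfl⟩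
    have he : 0 < e := by rw [hed]; exact lt_min he0 one_pos
    have he1 : e ≤ 1 := by rw [hed]; exact min_le_right _ _
    have hee : e ≤ e0 := by rw [hed]; exact min_le_left _ _
    obtain ⟨ν', hν', ih⟩ := ih (e := e / 2) (by positivity)
    obtain ⟨ν, hν⟩ : ∃ ν : ℝ, ν = min (ν' / 2) (e / 16) := ⟨_, rfl⟩
    have hν0 : 0 < ν := by rw [hν]; exact lt_min (by positivity) (by positivity)
    have hν1 : ν ≤ ν' / 2 := by rw [hν]; exact min_le_left _ _
    have hν2 : ν ≤ e / 16 := by rw [hν]; exact min_le_right _ _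
    refine ⟨ν, hν0, fun q hq V G hG => ?_⟩
    have hqR : (1 : ℝ) ≤ q := by exact_mod_cast hq
    obtain ⟨τ, hτd⟩ : ∃ τ : ℝ, τ = e * q := ⟨_, rfl⟩
    have hτ : 0 < τ := by rw [hτd]; positivity
    have hτ1 : τ / 2 ≤ 2 * q := by
      rw [hτd]
      nlinarith
    have hτe : τ / (16 * q) = e / 16 := by
      rw [hτd]
      field_simp
    rw [← hτe] at hν2
    -- the constants
    obtain ⟨δ, hδ⟩ : ∃ δ : ℝ, δ = ν / (m + 1) := ⟨_, rfl⟩
    have hmR : (0 : ℝ) ≤ m := Nat.cast_nonneg m
    have hδ0 : 0 < δ := by rw [hδ]; positivity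
    have hδm : δ * (m + 1) = ν := by rw [hδ]; field_simp
    obtain ⟨A0, hA0, hall⟩ := count_all K hδ0
    obtain ⟨A, hA⟩ : ∃ A : ℝ, A = max A0 1 := ⟨_, rfl⟩
    have hA1 : 1 ≤ A := by rw [hA]; exact le_max_right _ _
    have hAA : A0 ≤ A := by rw [hA]; exact le_max_left _ _
    have hspec := fun i : ℕ => ih q hq V (spec G (i : K)) fun j =>
      degreeOf_spec G i j (hG j.succ)
    choose C1 hC1 h1 using hspec
    have hcnt := fun i : ℕ => count1 V hq (i : K) (τ := τ / 2) (δ := τ / (16 * q)) (by positivity)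
      hτ1 (by positivity)
    choose C2 hC2 h2 using hcnt
    obtain ⟨c1, hc1⟩ : ∃ c1 : ℝ, c1 = ∑ i ∈ Finset.range (q + 1), C1 i := ⟨_, rfl⟩
    obtain ⟨c2, hc2⟩ : ∃ c2 : ℝ, c2 = ∑ i ∈ Finset.range (q + 1), C2 i := ⟨_, rfl⟩
    have hc10 : 0 ≤ c1 := by
      rw [hc1]
      exact Finset.sum_nonneg fun i _ => (hC1 i).le
    have hc20 : 0 < c2 := by
      rw [hc2]
      exact Finset.sum_pos (fun i _ => hC2 i) ⟨0, by simp⟩
    refine ⟨c1 * A + A ^ m * c2, by positivity, ?_⟩
    intro H hH S hS
    have hbx : ((bx K H).card : ℝ) ≤ A * Real.exp ((2 + δ) * H) := by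
      have h3 := hall H hH (bx K H) fun x hx => by
        rw [hr_aff]
        exact mem_bx.1 hx
      exact h3.trans (mul_le_mul_of_nonneg_right hAA (Real.exp_pos _).le)
    have hτH : τ * H ≤ e0 * q * H := by
      rw [hτd]
      exact mul_le_mul_of_nonneg_right (mul_le_mul_of_nonneg_right hee (by linarith)) hH
    have heτ : e / 2 * q = τ / 2 := by
      rw [hτd]
      ring
    -- the first case
    let P : ℕ → (Fin m → K) → Prop := fun i x => eval x (spec G (i : K)) ≠ 0 ∧
      τ / 2 * H ≤ ∑ v ∈ V, lamG q (spec G (i : K)) v x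
    let S1 : ℕ → Finset (Fin (m + 1) → K) := fun i => S.filter fun x => P i (Fin.tail x)
    obtain ⟨Q, hQ⟩ : ∃ Q : (Fin (m + 1) → K) → Prop, ∀ x, Q x ↔
        ∀ i ∈ Finset.range (q + 1), ¬ P i (Fin.tail x) := ⟨_, fun _ => Iff.rfl⟩
    let S2 : Finset (Fin (m + 1) → K) := S.filter fun x => Q x
    have hcover : S ⊆ ((Finset.range (q + 1)).biUnion S1) ∪ S2 := by
      intro x hx
      rw [Finset.mem_union]
      by_cases h : ∀ i ∈ Finset.range (q + 1), ¬ P i (Fin.tail x)
      · exact Or.inr (Finset.mem_filter.2 ⟨hx, (hQ x).2 h⟩)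
      · push Not at h
        obtain ⟨i, hi, hP⟩ := h
        exact Or.inl (Finset.mem_biUnion.2 ⟨i, hi, Finset.mem_filter.2 ⟨hx, hP⟩⟩)
    have hS1 : ∀ i, ((S1 i).card : ℝ) ≤ C1 i * A * Real.exp ((2 * (m + 1) - ν) * H) := by
      intro i
      have h3 := card_fibres (S1 i) ((bx K H).card : ℝ) (by
        intro x _
        have h4 : ((S1 i).filter fun y => Fin.tail y = x).image (fun y => y 0) ⊆ bx K H := by
          intro z hz
          obtain ⟨y, hy, rfl⟩ := Finset.mem_image.1 hz
          rw [mem_bx]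
          exact (hS y (Finset.mem_filter.1 (Finset.mem_filter.1 hy).1).1).1 0
        exact_mod_cast Finset.card_le_card h4)
      have h4 := h1 i H hH ((S1 i).image Fin.tail) (by
        intro x hx
        obtain ⟨y, hy, rfl⟩ := Finset.mem_image.1 hx
        obtain ⟨hyS, hyP⟩ := Finset.mem_filter.1 hy
        exact ⟨fun j => (hS y hyS).1 j.succ, hyP.1, by rw [heτ]; exact hyP.2⟩)
      have hm0 : (0 : ℝ) ≤ C1 i * Real.exp ((2 * m - ν') * H) :=
        mul_nonneg (hC1 i).le (Real.exp_pos _).le
      calc ((S1 i).card : ℝ) ≤ (((S1 i).image Fin.tail).card : ℝ) * ((bx K H).card : ℝ) := h3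
        _ ≤ (C1 i * Real.exp ((2 * m - ν') * H)) * (A * Real.exp ((2 + δ) * H)) :=
            mul_le_mul h4 hbx (Nat.cast_nonneg _) hm0
        _ = C1 i * A * Real.exp ((2 * m - ν') * H + (2 + δ) * H) := by
            rw [Real.exp_add]
            ring
        _ ≤ _ := by
            refine mul_le_mul_of_nonneg_left (Real.exp_le_exp.2 ?_)
              (mul_nonneg (hC1 i).le (by linarith))
            rw [← add_mul]
            refine mul_le_mul_of_nonneg_right ?_ hH
            have : δ ≤ ν := by
              rw [← hδm]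
              nlinarith
            linarith
    have hS2 : (S2.card : ℝ) ≤ A ^ m * c2 * Real.exp ((2 * (m + 1) - ν) * H) := by
      have h3 := card_fibres S2 (c2 * Real.exp ((2 - τ / 2 / (2 * q) + τ / (16 * q)) * H)) (by
        intro x hx
        obtain ⟨y0, hy0, rfl⟩ := Finset.mem_image.1 hx
        obtain ⟨hyS, hyP⟩ := Finset.mem_filter.1 hy0
        -- a value of the first variable
        have hfib : (fib G (Fin.tail y0)).eval (y0 0) ≠ 0 := by
          rw [eval_fib, Fin.cons_self_tail]
          exact (hS y0 hyS).2.1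
        obtain ⟨i, hi, hi0⟩ : ∃ i ∈ Finset.range (q + 1),
            (fib G (Fin.tail y0)).eval (i : K) ≠ 0 := by
          by_contra hcon
          push Not at hcon
          have h4 : fib G (Fin.tail y0) = 0 := by
            refine Polynomial.eq_zero_of_natDegree_lt_card_of_eval_eq_zero' _
              ((Finset.range (q + 1)).image fun i : ℕ => (i : K)) ?_ ?_
            · intro z hz
              obtain ⟨i, hi, rfl⟩ := Finset.mem_image.1 hz
              exact hcon i hi
            · rw [Finset.card_image_of_injective _ Nat.cast_injective, Finset.card_range]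
              exact Nat.lt_succ_of_le ((natDegree_fib G _).trans (hG 0))
          rw [h4, Polynomial.eval_zero] at hfib
          exact hfib rfl
        have h4 := h2 i H hH (fib G (Fin.tail y0)) ((natDegree_fib G _).trans (hG 0)) hi0
          (((S2.filter fun y => Fin.tail y = Fin.tail y0)).image fun y => y 0) (by
          intro z hz
          obtain ⟨y, hy, rfl⟩ := Finset.mem_image.1 hz
          obtain ⟨hy1, hy2⟩ := Finset.mem_filter.1 hy
          obtain ⟨hyS', hyP'⟩ := Finset.mem_filter.1 hy1
          obtain ⟨ha, hb, hc⟩ := hS y hyS'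
          have hb' : (fib G (Fin.tail y0)).eval (y 0) ≠ 0 := by
            rw [← hy2, eval_fib, Fin.cons_self_tail]
            exact hb
          refine ⟨by rw [hr_aff]; exact ha 0, hb', ?_⟩
          have h5 : ∑ v ∈ V, rho q (i : K) (fib G (Fin.tail y0)) v (y 0) =
              ∑ v ∈ V, lamG q G v y - ∑ v ∈ V, lamG q (spec G (i : K)) v (Fin.tail y0) := by
            rw [← Finset.sum_sub_distrib]
            refine Finset.sum_congr rfl fun v _ => ?_
            rw [← lamG_sub q G v (y 0) (i : K) (Fin.tail y0) hb' hi0]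
            congr 2
            rw [← hy2, Fin.cons_self_tail]
          have h6 := (hQ y0).1 hyP i hi
          have h7 : ∑ v ∈ V, lamG q (spec G (i : K)) v (Fin.tail y0) < τ / 2 * H := by
            by_contra hcon
            rw [not_lt] at hcon
            exact h6 ⟨by rw [eval_spec]; exact hi0, hcon⟩
          rw [h5]
          linarith)
        refine h4.trans (mul_le_mul_of_nonneg_right ?_ (Real.exp_pos _).le)
        rw [hc2]
        exact Finset.single_le_sum (f := C2) (fun j _ => (hC2 j).le) hi)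
      have h4 : ((S2.image Fin.tail).card : ℝ) ≤ A ^ m * Real.exp (m * ((2 + δ) * H)) := by
        have h5 : S2.image Fin.tail ⊆ Fintype.piFinset fun _ : Fin m => bx K H := by
          intro x hx
          obtain ⟨y, hy, rfl⟩ := Finset.mem_image.1 hx
          rw [Fintype.mem_piFinset]
          intro j
          rw [mem_bx]
          exact (hS y (Finset.mem_filter.1 hy).1).1 j.succ
        have h6 := Finset.card_le_card h5
        rw [Fintype.card_piFinset, Finset.prod_const, Finset.card_univ, Fintype.card_fin] at h6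
        calc ((S2.image Fin.tail).card : ℝ) ≤ ((bx K H).card : ℝ) ^ m := by exact_mod_cast h6
          _ ≤ (A * Real.exp ((2 + δ) * H)) ^ m := pow_le_pow_left₀ (Nat.cast_nonneg _) hbx m
          _ = _ := by rw [mul_pow, ← Real.exp_nat_mul]
      calc (S2.card : ℝ) ≤ ((S2.image Fin.tail).card : ℝ) *
            (c2 * Real.exp ((2 - τ / 2 / (2 * q) + τ / (16 * q)) * H)) := h3
        _ ≤ (A ^ m * Real.exp (m * ((2 + δ) * H))) *
            (c2 * Real.exp ((2 - τ / 2 / (2 * q) + τ / (16 * q)) * H)) :=
            mul_le_mul_of_nonneg_right h4 (mul_nonneg hc20.le (Real.exp_pos _).le)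
        _ = A ^ m * c2 * Real.exp (m * ((2 + δ) * H) +
            (2 - τ / 2 / (2 * q) + τ / (16 * q)) * H) := by
            rw [Real.exp_add]
            ring
        _ ≤ _ := by
            refine mul_le_mul_of_nonneg_left (Real.exp_le_exp.2 ?_) (by positivity)
            have h5 : (m : ℝ) * ((2 + δ) * H) + (2 - τ / 2 / (2 * q) + τ / (16 * q)) * H =
                (2 * m + m * δ + 2 - τ / 2 / (2 * q) + τ / (16 * q)) * H := by ring
            rw [h5]
            refine mul_le_mul_of_nonneg_right ?_ hH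
            have h6 : τ / 2 / (2 * q) = 4 * (τ / (16 * q)) := by
              field_simp
              ring
            have h7 : m * δ ≤ ν := by
              rw [← hδm]
              nlinarith
            rw [h6]
            linarith
    have hE0 : 0 < Real.exp ((2 * (m + 1) - ν) * H) := Real.exp_pos _
    have hcast : (2 * ((m + 1 : ℕ) : ℝ) - ν) = 2 * (m + 1) - ν := by push_cast; ring
    rw [hcast]
    calc (S.card : ℝ) ≤ ((((Finset.range (q + 1)).biUnion S1) ∪ S2).card : ℝ) := by
          exact_mod_cast Finset.card_le_card hcover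
      _ ≤ ∑ i ∈ Finset.range (q + 1), ((S1 i).card : ℝ) + (S2.card : ℝ) := by
          have e1 : ((Finset.range (q + 1)).biUnion S1).card ≤
              ∑ i ∈ Finset.range (q + 1), (S1 i).card := Finset.card_biUnion_le
          have e2 := (Finset.card_union_le ((Finset.range (q + 1)).biUnion S1) S2).trans
            (Nat.add_le_add_right e1 _)
          exact_mod_cast e2
      _ ≤ ∑ i ∈ Finset.range (q + 1), C1 i * A * Real.exp ((2 * (m + 1) - ν) * H) +
          A ^ m * c2 * Real.exp ((2 * (m + 1) - ν) * H) :=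
          add_le_add (Finset.sum_le_sum fun i _ => hS1 i) hS2
      _ = _ := by
          rw [← Finset.sum_mul, ← Finset.sum_mul, ← hc1]
          ring

end Pool.Agent.N751.PR
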