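import Mathlib
import Pool.Agent.N751.PR.Multi
import Pool.Agent.N753.LS.Fin2

/-!
# The exceptional set for the proximity functions
-/

set_option autoImplicit false
set_option linter.unusedSectionVars false

namespace Pool.Agent.N751.PR

open NumberField IsDedekindDomain Finset Pool.Agent.H691R3 Pool.Agent.TH876.Loc
  Pool.Agent.N753.LS MvPolynomial Height

variable (K : Type) [Field K] [NumberField K]

theorem countable_K : Countable K :=
  (Module.finBasis ℚ K).equivFun.toEquiv.countable_iff.2 inferInstance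

theorem countable_mv (m : ℕ) : Countable (MvPolynomial (Fin m) K) := by
  have := countable_K K
  rw [← Cardinal.mk_le_aleph0_iff]
  refine MvPolynomial.cardinalMk_le_max.trans (max_le (max_le ?_ ?_) le_rfl)
  · rw [Cardinal.mk_le_aleph0_iff]
    exact this
  · rw [Cardinal.mk_le_aleph0_iff]
    infer_instance

theorem countable_pr : Countable (Pr K) := by
  rw [← Set.countable_univ_iff]
  refine (Set.countable_iUnion fun n : ℕ => (fin_Nv (K := K) n).countable).mono ?_
  intro v _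
  obtain ⟨n, hn⟩ := exists_nat_ge (Nv v)
  exact Set.mem_iUnion.2 ⟨n, hn⟩

theorem exists_enum2 (m : ℕ) :
    ∃ e : ℕ → ℕ × MvPolynomial (Fin m) K × Finset (Pl K), Function.Surjective e := by
  have h1 := countable_mv K m
  have h2 := countable_pr K
  have h3 : Countable (InfinitePlace K) := Finite.to_countable
  have h4 : Countable (Pl K) := inferInstance
  exact exists_surjective_nat _

/-- **the exceptional set** -/
theorem exists_E3 {m : ℕ} (hm : 0 < m) {ε : ℝ} (hε : 0 < ε) :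
    ∃ E : Set (Fin m → K), (∃ ν C : ℝ, 0 < ν ∧ ∀ H : ℝ, 0 ≤ H →
      ((E ∩ {x | htm x ≤ H}).ncard : ℝ) ≤ C * Real.exp ((2 * m - ν) * H)) ∧
      ∀ q : ℕ, 1 ≤ q → ∀ (G : MvPolynomial (Fin m) K), (∀ i, degreeOf i G ≤ q) →
        ∀ V : Finset (Pl K), ∃ c : ℝ, ∀ x : Fin m → K, x ∉ E → eval x G ≠ 0 →
          ∑ v ∈ V, lamG q G v x ≤ ε * q * htm x + c := by
  classical
  have hmR : (1 : ℝ) ≤ m := by exact_mod_cast hm
  obtain ⟨ν0, hν0, hcount⟩ := countM (K := K) m (e := ε / 2) (by positivity)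
  obtain ⟨ν, hν⟩ : ∃ ν : ℝ, ν = min ν0 (1 / 2) := ⟨_, rfl⟩
  have hνp : 0 < ν := by rw [hν]; exact lt_min hν0 (by norm_num)
  have hν1 : ν ≤ ν0 := by rw [hν]; exact min_le_left _ _
  have hν2 : ν ≤ 1 / 2 := by rw [hν]; exact min_le_right _ _
  obtain ⟨A, hA, hall⟩ := count_all K (δ := 1) one_pos
  obtain ⟨e, he⟩ := exists_enum2 K m
  -- the bad sets
  let Bd : ℕ → MvPolynomial (Fin m) K → Finset (Pl K) → Set (Fin m → K) := fun q G V =>
    {x | eval x G ≠ 0 ∧ ε * q * htm x < ∑ v ∈ V, lamG q G v x}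
  have hcountB : ∀ q G V, (1 ≤ q ∧ ∀ i, degreeOf i G ≤ q) → ∃ C : ℝ, ∀ H : ℝ, 0 ≤ H →
      ((Bd q G V ∩ {x | htm x ≤ H}).ncard : ℝ) ≤ C * Real.exp ((2 * m - ν) * H) := by
    intro q G V hG
    obtain ⟨C, hC, hc⟩ := hcount q hG.1 V G hG.2
    have hqR : (1 : ℝ) ≤ q := by exact_mod_cast hG.1
    have hεq : 0 < ε * q := by positivity
    refine ⟨C + A ^ m, fun H hH => ?_⟩
    obtain ⟨B1, hB1⟩ : ∃ B1 : Finset (Fin m → K), B1 = ((box_fin (K := K) (m := m) H).toFinset).filter
      fun x => eval x G ≠ 0 ∧ ε / 2 * q * H ≤ ∑ v ∈ V, lamG q G v x := ⟨_, rfl⟩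
    obtain ⟨B2, hB2⟩ : ∃ B2 : Finset (Fin m → K), B2 = Fintype.piFinset fun _ : Fin m =>
      bx K (H / 2) := ⟨_, rfl⟩
    have hsub : Bd q G V ∩ {x | htm x ≤ H} ⊆
        ((B1 ∪ B2 : Finset (Fin m → K)) : Set (Fin m → K)) := by
      rintro x ⟨⟨hx0, hx1⟩, hx2⟩
      have hx2' : htm x ≤ H := hx2
      rw [Finset.mem_coe, Finset.mem_union]
      by_cases h : htm x ≤ H / 2
      · right
        rw [hB2, Fintype.mem_piFinset]
        intro i
        rw [mem_bx]
        exact (le_htm x i).trans h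
      · left
        rw [not_le] at h
        rw [hB1, Finset.mem_filter, Set.Finite.mem_toFinset]
        refine ⟨hx2', hx0, ?_⟩
        nlinarith
    have h1 : (B1.card : ℝ) ≤ C * Real.exp ((2 * m - ν0) * H) := by
      refine hc H hH B1 fun x hx => ?_
      rw [hB1, Finset.mem_filter, Set.Finite.mem_toFinset] at hx
      have hx1 : htm x ≤ H := hx.1
      exact ⟨fun i => (le_htm x i).trans hx1, hx.2.1, hx.2.2⟩
    have h2 : (B2.card : ℝ) ≤ A ^ m * Real.exp (m * ((2 + 1) * (H / 2))) := by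
      have h3 := hall (H / 2) (by positivity) (bx K (H / 2)) fun x hx => by
        rw [hr_aff]
        exact mem_bx.1 hx
      rw [hB2, Fintype.card_piFinset, Finset.prod_const, Finset.card_univ, Fintype.card_fin]
      push_cast
      calc ((bx K (H / 2)).card : ℝ) ^ m ≤ (A * Real.exp ((2 + 1) * (H / 2))) ^ m :=
            pow_le_pow_left₀ (Nat.cast_nonneg _) h3 m
        _ = _ := by rw [mul_pow, ← Real.exp_nat_mul]
    have h3 : Real.exp ((2 * m - ν0) * H) ≤ Real.exp ((2 * m - ν) * H) :=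
      Real.exp_le_exp.2 (mul_le_mul_of_nonneg_right (by linarith) hH)
    have h4 : Real.exp (m * ((2 + 1) * (H / 2))) ≤ Real.exp ((2 * m - ν) * H) := by
      refine Real.exp_le_exp.2 ?_
      have : (m : ℝ) * ((2 + 1) * (H / 2)) = (3 / 2 * m) * H := by ring
      rw [this]
      refine mul_le_mul_of_nonneg_right ?_ hH
      linarith
    calc ((Bd q G V ∩ {x | htm x ≤ H}).ncard : ℝ) ≤
          ((B1 ∪ B2 : Finset (Fin m → K)).card : ℝ) := by
          rw [← Set.ncard_coe_finset]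
          exact_mod_cast Set.ncard_le_ncard hsub (Finset.finite_toSet _)
      _ ≤ B1.card + B2.card := by exact_mod_cast Finset.card_union_le _ _
      _ ≤ C * Real.exp ((2 * m - ν) * H) + A ^ m * Real.exp ((2 * m - ν) * H) := by
          refine add_le_add (h1.trans (mul_le_mul_of_nonneg_left h3 hC.le)) (h2.trans ?_)
          exact mul_le_mul_of_nonneg_left h4 (by positivity)
      _ = _ := by ring
  obtain ⟨T, h, hT1, hT2⟩ := diag (X := Fin m → K) (fun x => htm x) (fun H => box_fin H)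
    (fun n => if 1 ≤ (e n).1 ∧ ∀ i, degreeOf i (e n).2.1 ≤ (e n).1 then
      Bd (e n).1 (e n).2.1 (e n).2.2 else ∅) (α := 2 * m - ν) (by
      intro n
      by_cases hn : 1 ≤ (e n).1 ∧ ∀ i, degreeOf i (e n).2.1 ≤ (e n).1
      · obtain ⟨C, hC⟩ := hcountB (e n).1 (e n).2.1 (e n).2.2 hn
        refine ⟨C, fun H hH => ?_⟩
        rw [if_pos hn]
        exact hC H hH
      · refine ⟨0, fun H hH => ?_⟩
        rw [if_neg hn, Set.empty_inter, Set.ncard_empty, Nat.cast_zero, zero_mul]) (ν := ν / 2)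
    (by positivity)
  refine ⟨T, ⟨ν / 2, 2, by positivity, fun H hH => ?_⟩, fun q hq G hG V => ?_⟩
  · refine (hT2 H hH).trans (le_of_eq ?_)
    congr 2
    ring
  · obtain ⟨n, hn⟩ := he (q, G, V)
    have hn0 : (e n).1 = q := by rw [hn]
    have hn1 : (e n).2.1 = G := by rw [hn]
    have hn2 : (e n).2.2 = V := by rw [hn]
    obtain ⟨F, hF⟩ : ∃ F : Finset (Fin m → K), F = (box_fin (K := K) (m := m) (h n)).toFinset :=
      ⟨_, rfl⟩
    refine ⟨∑ x ∈ F, |∑ v ∈ V, lamG q G v x - ε * q * htm x|, fun x hx hx0 => ?_⟩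
    by_cases hxB : x ∈ Bd q G V
    · have h1 := hT1 n x (by
        rw [hn0, hn1, hn2, if_pos ⟨hq, hG⟩]
        exact hxB) hx
      have h2 : x ∈ F := by
        rw [hF, Set.Finite.mem_toFinset]
        exact h1.le
      have h3 := Finset.single_le_sum (f := fun x => |∑ v ∈ V, lamG q G v x - ε * q * htm x|)
        (fun y _ => abs_nonneg _) h2
      have h4 := le_abs_self (∑ v ∈ V, lamG q G v x - ε * q * htm x)
      have h5 : |∑ v ∈ V, lamG q G v x - ε * q * htm x| ≤
        ∑ x ∈ F, |∑ v ∈ V, lamG q G v x - ε * q * htm x| := h3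
      linarith
    · have h1 : ∑ v ∈ V, lamG q G v x ≤ ε * q * htm x := by
        by_contra hcon
        rw [not_le] at hcon
        exact hxB ⟨hx0, hcon⟩
      have h2 : 0 ≤ ∑ x ∈ F, |∑ v ∈ V, lamG q G v x - ε * q * htm x| :=
        Finset.sum_nonneg fun y _ => abs_nonneg _
      linarith

end Pool.Agent.N751.PR
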