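import Mathlib
import Pool.Agent.N751.PR.Bad

/-!
# The discriminants and the proximity functions outside one exceptional set
-/

set_option autoImplicit false
set_option linter.unusedSectionVars false

namespace Pool.Agent.N751.PR

open NumberField IsDedekindDomain Finset Pool.Agent.H691R3 Pool.Agent.TH876.Loc
  Pool.Agent.N753.LS Polynomial Height Module

variable {K : Type} [Field K] [NumberField K]

variable (K) in
open Classical in
/-- the bound for the discriminants, with parts allowed to be empty -/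
theorem main0 {m : ℕ} (hm : 0 < m) {ε : ℝ} (hε : 0 < ε) :
    ∃ E : Set (Fin m → K), (∃ ν C : ℝ, 0 < ν ∧ ∀ H : ℝ, 0 ≤ H →
      ((E ∩ {x | htm x ≤ H}).ncard : ℝ) ≤ C * Real.exp ((2 * m - ν) * H)) ∧
      ∀ (A : Fin m → Type) [∀ i, CommRing (A i)] [∀ i, Algebra K (A i)] [∀ i, Algebra K[X] (A i)]
        [∀ i, IsScalarTower K K[X] (A i)] (N : Fin m → ℕ) (b : ∀ i, Basis (Fin (N i)) K[X] (A i))
        (r : Fin m → ℕ), (∀ i, OddParts (Algebra.discr K[X] (b i)) (r i)) →
        ∃ c : ℝ, ∀ x : Fin m → K, x ∉ E → ∀ (L : Type) [Field L] [NumberField L] [Algebra K L]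
          (φ : ∀ i, A i →ₐ[K] L),
          (∀ i, φ i (algebraMap K[X] (A i) X) = algebraMap K L (x i)) →
          (∀ i, Module.finrank K (IntermediateField.adjoin K (Set.range (φ i))) = N i) →
          ∑ i, r i * (2 - ε) / N i * logHeight₁ (x i) ≤
            Real.log |(discr L : ℝ)| / Module.finrank K L - Real.log |(discr K : ℝ)| +
              ε * ∑ i, logHeight₁ (x i) + c := by
  have hmR : (1 : ℝ) ≤ m := by exact_mod_cast hm
  obtain ⟨e0, he0⟩ : ∃ e0 : ℝ, e0 = min ε 1 := ⟨_, rfl⟩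
  have he00 : 0 < e0 := by rw [he0]; exact lt_min hε one_pos
  have he01 : e0 ≤ 1 := by rw [he0]; exact min_le_right _ _
  have he02 : e0 ≤ ε := by rw [he0]; exact min_le_left _ _
  obtain ⟨η, hη⟩ : ∃ η : ℝ, η = e0 / (4 * m) := ⟨_, rfl⟩
  have hη0 : 0 < η := by rw [hη]; positivity
  have hη1 : η ≤ 1 := by
    rw [hη, div_le_one (by positivity)]
    linarith
  have hηm : 2 * m * η = e0 / 2 := by
    rw [hη]
    field_simp
    norm_num
  obtain ⟨E, hE1, hE2, hE3⟩ := exists_E K hm (ε := e0 / 2) (by positivity) (by linarith) hη0 hη1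
  refine ⟨E, hE1, ?_⟩
  intro A _ _ _ _ N b r hD
  have hparts := fun (i : Fin m) (h : 1 ≤ r i) => exists_parts h (hD i)
  choose f W hf hfp hcop hodd hx using hparts
  have hT := fun (i : Fin m) (h : 1 ≤ r i) => sum_T hE2 (by positivity) (by linarith) (f i h)
    (hf i h) (hcop i h) (hodd i h) (W i h)
  choose c1 hc1 hT using hT
  have hO := fun (i j : Fin m) (hi : 1 ≤ r i) (hj : 1 ≤ r j) =>
    sum_over hE3 hη0 (hfp i hi) (hfp j hj)
  choose c2 hc2 hO using hO
  -- the constants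
  obtain ⟨d1, hd1⟩ : ∃ d1 : Fin m → ℝ, d1 = fun i => if h : 1 ≤ r i then c1 i h else 0 := ⟨_, rfl⟩
  obtain ⟨d2, hd2⟩ : ∃ d2 : Fin m → Fin m → ℝ, d2 = fun i j => if hi : 1 ≤ r i then
    (if hj : 1 ≤ r j then c2 i j hi hj else 0) else 0 := ⟨_, rfl⟩
  have hd1' : ∀ i, 0 ≤ d1 i := by
    intro i
    rw [hd1]
    beta_reduce
    split_ifs with h
    · exact hc1 i h
    · exact le_rfl
  have hd2' : ∀ i j, 0 ≤ d2 i j := by
    intro i j
    rw [hd2]
    beta_reduce
    split_ifs with h1 h2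
    · exact hc2 i j h1 h2
    · exact le_rfl
    · exact le_rfl
  obtain ⟨c3, hc3⟩ : ∃ c3 : ℝ, c3 = ∑ i, ∑ j, d2 i j := ⟨_, rfl⟩
  have hc30 : 0 ≤ c3 := by
    rw [hc3]
    exact Finset.sum_nonneg fun i _ => Finset.sum_nonneg fun j _ => hd2' i j
  have hc3' : ∀ i j, d2 i j ≤ c3 := by
    intro i j
    rw [hc3]
    refine le_trans ?_ (Finset.single_le_sum (f := fun i => ∑ j, d2 i j)
      (fun i _ => Finset.sum_nonneg fun j _ => hd2' i j) (Finset.mem_univ i))
    exact Finset.single_le_sum (f := fun j => d2 i j) (fun j _ => hd2' i j) (Finset.mem_univ j)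
  refine ⟨∑ i, d1 i + m ^ 2 * c3, ?_⟩
  intro x hxE L _ _ _ φ hφ hdeg
  have hfd : FiniteDimensional K L := Module.Finite.of_restrictScalars_finite ℚ K L
  -- the residue fields
  have hres : ∀ i, ∃ C : Basis (Fin (N i)) K (res (φ i)), ∀ j, C j = toRes (φ i) (b i j) := by
    intro i
    refine exists_C (b i) (toRes (φ i)) (x := x i) ?_ (toRes_surj (φ i)) (hdeg i)
    exact Subtype.ext (hφ i)
  choose C hC using hres
  have hdisc : ∀ i, Algebra.discr K (C i) = (Algebra.discr K[X] (b i)).eval (x i) := by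
    intro i
    exact discr_eval (b i) (toRes (φ i)) (Subtype.ext (hφ i)) (C i) (hC i)
  have hD0 : ∀ i, (Algebra.discr K[X] (b i)).eval (x i) ≠ 0 := by
    intro i
    rw [← hdisc i]
    exact Algebra.discr_not_zero_of_basis K (C i)
  have hN1 : ∀ i, (1 : ℝ) ≤ N i := by
    intro i
    rw [← hdeg i]
    exact_mod_cast Module.finrank_pos
  -- the ramified primes
  obtain ⟨T, hTd⟩ : ∃ T : Fin m → Finset (Pr K),
    T = fun i => if h : 1 ≤ r i then od (aeval (x i) (∏ j, f i h j)) \ W i h else ∅ := ⟨_, rfl⟩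
  have hTm : ∀ i (h : 1 ≤ r i), T i = od (aeval (x i) (∏ j, f i h j)) \ W i h := fun i h => by
    rw [hTd]
    exact dif_pos h
  have hTe : ∀ i, ¬ 1 ≤ r i → T i = ∅ := fun i h => by
    rw [hTd]
    exact dif_neg h
  have hfx : ∀ i h, aeval (x i) (∏ j, f i h j) ≠ 0 := by
    intro i h
    rw [map_prod]
    exact Finset.prod_ne_zero_iff.2 fun j _ => (hx i h (x i) (hD0 i)).1 j
  obtain ⟨ι, hι1, hι2, -, hι3⟩ := comb (V0 := Pr K) (fun i => (N i : ℝ)) hN1
    (fun i => logHeight₁ (x i)) (fun i => zero_le_logHeight₁ _) T (fun v => Real.log (Nv v))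
    (fun v => (log_Nv_pos v).le) (η := η) (c := c3) hη0.le hc30 (by
      intro i j hij
      have hmx : 0 ≤ max (logHeight₁ (x i)) (logHeight₁ (x j)) :=
        (zero_le_logHeight₁ _).trans (le_max_left _ _)
      have hz : 0 ≤ η * max (logHeight₁ (x i)) (logHeight₁ (x j)) + c3 :=
        add_nonneg (mul_nonneg hη0.le hmx) hc30
      by_cases hi : 1 ≤ r i
      · by_cases hj : 1 ≤ r j
        · refine (hO i j hi hj x hxE i j hij (hfx i hi) (T i) (T j) ?_ ?_).trans ?_
          · rw [hTm i hi]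
            exact Finset.sdiff_subset
          · rw [hTm j hj]
            exact Finset.sdiff_subset
          · have h1 := hc3' i j
            have h2 : d2 i j = c2 i j hi hj := by
              rw [hd2]
              beta_reduce
              rw [dif_pos hi, dif_pos hj]
            linarith
        · rw [hTe j hj, Finset.inter_empty, Finset.sum_empty]
          exact hz
      · rw [hTe i hi, Finset.empty_inter, Finset.sum_empty]
        exact hz)
  have hmain := disc_many (fun i => res (φ i)) hdeg C T (by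
    intro i v hv
    by_cases hi : 1 ≤ r i
    · rw [hTm i hi, Finset.mem_sdiff] at hv
      rw [hdisc i]
      exact (hx i hi (x i) (hD0 i)).2 v hv.1 hv.2
    · rw [hTe i hi] at hv
      exact absurd hv (Finset.notMem_empty v)) ι hι1 hι2
  have hlow : ∑ i, (r i * (2 - e0 / 2) / N i * logHeight₁ (x i) - d1 i) ≤
      ∑ i, 1 / (N i : ℝ) * ∑ v ∈ T i, Real.log (Nv v) := by
    refine Finset.sum_le_sum fun i _ => ?_
    by_cases hi : 1 ≤ r i
    · have h1 := hT i hi x hxE i (hx i hi (x i) (hD0 i)).1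
      rw [← hTm i hi] at h1
      have h0 : d1 i = c1 i hi := by
        rw [hd1]
        exact dif_pos hi
      have h2 : 0 < (N i : ℝ) := by linarith [hN1 i]
      have h3 : 1 / (N i : ℝ) ≤ 1 := by
        rw [div_le_one h2]
        exact hN1 i
      have h4 : 0 ≤ 1 / (N i : ℝ) := by positivity
      have h5 := mul_le_mul_of_nonneg_left h1 h4
      have h6 : 1 / (N i : ℝ) * c1 i hi ≤ c1 i hi := by nlinarith [hc1 i hi]
      rw [h0]
      calc r i * (2 - e0 / 2) / N i * logHeight₁ (x i) - c1 i hi =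
            1 / (N i : ℝ) * (r i * (2 - e0 / 2) * logHeight₁ (x i)) - c1 i hi := by ring
        _ ≤ _ := by
            rw [mul_add] at h5
            linarith
    · have h0 : r i = 0 := by omega
      rw [hTe i hi, h0, Finset.sum_empty, Nat.cast_zero, zero_mul, zero_div, zero_mul, mul_zero]
      linarith [hd1' i]
  have hterm : ∀ i, r i * (2 - ε) / N i * logHeight₁ (x i) - ε * logHeight₁ (x i) ≤
      r i * (2 - e0 / 2) / N i * logHeight₁ (x i) - 2 * m * η * (logHeight₁ (x i) / N i) := by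
    intro i
    have h2 : 0 < (N i : ℝ) := by linarith [hN1 i]
    have h0 := zero_le_logHeight₁ (x i)
    have h3 : 0 ≤ logHeight₁ (x i) / N i := div_nonneg h0 h2.le
    have h3' : logHeight₁ (x i) / N i ≤ logHeight₁ (x i) := div_le_self h0 (hN1 i)
    have h4 : (0 : ℝ) ≤ r i := Nat.cast_nonneg _
    rw [hηm]
    have h5 : (r i : ℝ) * (2 - ε) ≤ r i * (2 - e0 / 2) := by nlinarith
    have h6 := mul_le_mul_of_nonneg_right h5 h3
    have h7 : e0 / 2 * (logHeight₁ (x i) / N i) ≤ ε * logHeight₁ (x i) := by nlinarith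
    calc r i * (2 - ε) / N i * logHeight₁ (x i) - ε * logHeight₁ (x i) =
          (r i : ℝ) * (2 - ε) * (logHeight₁ (x i) / N i) - ε * logHeight₁ (x i) := by ring
      _ ≤ (r i : ℝ) * (2 - e0 / 2) * (logHeight₁ (x i) / N i) -
          e0 / 2 * (logHeight₁ (x i) / N i) := by linarith
      _ = _ := by ring
  have hsum : ∑ i, r i * (2 - ε) / N i * logHeight₁ (x i) - ε * ∑ i, logHeight₁ (x i) ≤
      ∑ i, (r i * (2 - e0 / 2) / N i * logHeight₁ (x i) - d1 i) + ∑ i, d1 i -
          2 * m * η * ∑ i, logHeight₁ (x i) / N i := by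
    calc ∑ i, r i * (2 - ε) / N i * logHeight₁ (x i) - ε * ∑ i, logHeight₁ (x i) =
          ∑ i, (r i * (2 - ε) / N i * logHeight₁ (x i) - ε * logHeight₁ (x i)) := by
          rw [Finset.sum_sub_distrib, Finset.mul_sum]
      _ ≤ ∑ i, (r i * (2 - e0 / 2) / N i * logHeight₁ (x i) -
          2 * m * η * (logHeight₁ (x i) / N i)) := Finset.sum_le_sum fun i _ => hterm i
      _ = _ := by
        rw [Finset.sum_sub_distrib, Finset.sum_sub_distrib, Finset.mul_sum]
        ring
  linarith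

variable (K) in
/-- **the main theorem** -/
theorem mainP {m : ℕ} (hm : 0 < m) {ε : ℝ} (hε : 0 < ε) :
    ∃ E : Set (Fin m → K), (∃ ν C : ℝ, 0 < ν ∧ ∀ H : ℝ, 0 ≤ H →
      ((E ∩ {x | htm x ≤ H}).ncard : ℝ) ≤ C * Real.exp ((2 * m - ν) * H)) ∧
      ∀ (A : Fin m → Type) [∀ i, CommRing (A i)] [∀ i, Algebra K (A i)] [∀ i, Algebra K[X] (A i)]
        [∀ i, IsScalarTower K K[X] (A i)] (N : Fin m → ℕ) (b : ∀ i, Basis (Fin (N i)) K[X] (A i))
        (r : Fin m → ℕ), (∀ i, OddParts (Algebra.discr K[X] (b i)) (r i)) →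
        ∀ q : ℕ, 1 ≤ q →
        ∀ G : MvPolynomial (Fin m) K, (∀ i, MvPolynomial.degreeOf i G ≤ q) →
        ∀ V : Finset (Pl K),
        ∃ c : ℝ, ∀ x : Fin m → K, x ∉ E → MvPolynomial.eval x G ≠ 0 →
          ∀ (L : Type) [Field L] [NumberField L] [Algebra K L] (φ : ∀ i, A i →ₐ[K] L),
          (∀ i, φ i (algebraMap K[X] (A i) X) = algebraMap K L (x i)) →
          (∀ i, Module.finrank K (IntermediateField.adjoin K (Set.range (φ i))) = N i) →
          ∑ v ∈ V, lamG q G v x + ∑ i, r i * (2 - ε) / N i * logHeight₁ (x i) ≤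
            Real.log |(discr L : ℝ)| / Module.finrank K L - Real.log |(discr K : ℝ)| +
              ε * (q * ∑ i, logHeight₁ (x i)) + c := by
  obtain ⟨E0, ⟨ν0, C0, hν0, hE0⟩, h0⟩ := main0 K hm (ε := ε / 2) (by positivity)
  obtain ⟨E1, ⟨ν1, C1, hν1, hE1⟩, h1⟩ := exists_E3 K hm (ε := ε / 2) (by positivity)
  refine ⟨E0 ∪ E1, ⟨min ν0 ν1, max C0 0 + max C1 0, lt_min hν0 hν1, fun H hH => ?_⟩, ?_⟩
  · have e0 := hE0 H hH
    have e1 := hE1 H hH
    have e2 : Real.exp ((2 * m - ν0) * H) ≤ Real.exp ((2 * m - min ν0 ν1) * H) :=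
      Real.exp_le_exp.2 (mul_le_mul_of_nonneg_right (by linarith [min_le_left ν0 ν1]) hH)
    have e3 : Real.exp ((2 * m - ν1) * H) ≤ Real.exp ((2 * m - min ν0 ν1) * H) :=
      Real.exp_le_exp.2 (mul_le_mul_of_nonneg_right (by linarith [min_le_right ν0 ν1]) hH)
    have e4 := le_max_right C0 0
    have e5 := le_max_right C1 0
    have e6 : C0 * Real.exp ((2 * m - ν0) * H) ≤
        max C0 0 * Real.exp ((2 * m - min ν0 ν1) * H) :=
      mul_le_mul (le_max_left _ _) e2 (Real.exp_pos _).le e4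
    have e7 : C1 * Real.exp ((2 * m - ν1) * H) ≤
        max C1 0 * Real.exp ((2 * m - min ν0 ν1) * H) :=
      mul_le_mul (le_max_left _ _) e3 (Real.exp_pos _).le e5
    have e8 : (((E0 ∪ E1) ∩ {x | htm x ≤ H}).ncard : ℝ) ≤
        ((E0 ∩ {x | htm x ≤ H}).ncard : ℝ) + ((E1 ∩ {x | htm x ≤ H}).ncard : ℝ) := by
      rw [Set.union_inter_distrib_right]
      exact_mod_cast Set.ncard_union_le _ _
    rw [add_mul]
    linarith
  · intro A _ _ _ _ N b r hD q hq G hG V
    have hqR : (1 : ℝ) ≤ q := by exact_mod_cast hq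
    obtain ⟨c0, h0⟩ := h0 A N b r hD
    obtain ⟨c1, h1⟩ := h1 q hq G hG V
    refine ⟨c0 + c1, fun x hx hx0 L _ _ _ φ hφ hdeg => ?_⟩
    have hx' : x ∉ E0 ∧ x ∉ E1 := ⟨fun h => hx (Or.inl h), fun h => hx (Or.inr h)⟩
    have h2 := h0 x hx'.1 L φ hφ hdeg
    have h3 := h1 x hx'.2 hx0
    obtain ⟨T, hT⟩ : ∃ T : ℝ, T = ∑ i, logHeight₁ (x i) := ⟨_, rfl⟩
    have hT0 : 0 ≤ T := by
      rw [hT]
      exact Finset.sum_nonneg fun i _ => zero_le_logHeight₁ _
    rw [← hT] at h2 ⊢
    have h5 : htm x ≤ T := by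
      rw [hT]
      exact htm_le hm fun i => Finset.single_le_sum (f := fun i => logHeight₁ (x i))
        (fun j _ => zero_le_logHeight₁ _) (Finset.mem_univ i)
    have h6 : ε / 2 * q * htm x ≤ ε / 2 * q * T :=
      mul_le_mul_of_nonneg_left h5 (by positivity)
    have h7 : ∑ i, r i * (2 - ε) / N i * logHeight₁ (x i) ≤
        ∑ i, r i * (2 - ε / 2) / N i * logHeight₁ (x i) := by
      refine Finset.sum_le_sum fun i _ => ?_
      refine mul_le_mul_of_nonneg_right ?_ (zero_le_logHeight₁ _)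
      refine div_le_div_of_nonneg_right ?_ (Nat.cast_nonneg _)
      exact mul_le_mul_of_nonneg_left (by linarith) (Nat.cast_nonneg _)
    have h8 : ε / 2 * T ≤ ε / 2 * q * T := by
      have : 0 ≤ ε / 2 * T := by positivity
      nlinarith
    linarith

end Pool.Agent.N751.PR
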